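import Mathlib

/-!
# MP_cd44e0_nt: continuous cohomology of the adjoint representation in degrees 1 and 2

Inhomogeneous continuous (= locally constant) cochains of `G` with values in the discrete module
`ad(ρ) = M_n(k)`.
-/

set_option autoImplicit false

namespace MC

open Matrix

section defs

variable {G : Type} [Group G] {R : Type} [CommRing R] {n : ℕ}

/-- The action of `g` on `ad(ρ) = M_n(R)` by conjugation. -/
def adAct (ρ : G →* GL (Fin n) R) (g : G) :
    Matrix (Fin n) (Fin n) R →ₗ[R] Matrix (Fin n) (Fin n) R where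
  toFun X := (ρ g : Matrix (Fin n) (Fin n) R) * X * (((ρ g)⁻¹ : GL (Fin n) R) : Matrix (Fin n) (Fin n) R)
  map_add' X Y := by rw [Matrix.mul_add, Matrix.add_mul]
  map_smul' c X := by rw [Matrix.mul_smul, Matrix.smul_mul, RingHom.id_apply]

lemma adAct_apply (ρ : G →* GL (Fin n) R) (g : G) (X : Matrix (Fin n) (Fin n) R) :
    adAct ρ g X = (ρ g : Matrix (Fin n) (Fin n) R) * X *
      (((ρ g)⁻¹ : GL (Fin n) R) : Matrix (Fin n) (Fin n) R) := rfl

lemma adAct_mul (ρ : G →* GL (Fin n) R) (g h : G) (X : Matrix (Fin n) (Fin n) R) :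
    adAct ρ (g * h) X = adAct ρ g (adAct ρ h X) := by
  rw [adAct_apply, adAct_apply, adAct_apply, map_mul, _root_.mul_inv_rev, Units.val_mul, Units.val_mul]
  simp only [Matrix.mul_assoc]

lemma adAct_one (ρ : G →* GL (Fin n) R) (X : Matrix (Fin n) (Fin n) R) :
    adAct ρ 1 X = X := by
  rw [adAct_apply, map_one, inv_one, Units.val_one, Matrix.one_mul, Matrix.mul_one]

variable [TopologicalSpace G]

/-- Continuous 1-cocycles `f(gh) = f(g) + g f(h)` with values in `ad(ρ)`. -/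
def Z1 (ρ : G →* GL (Fin n) R) : Submodule R (G → Matrix (Fin n) (Fin n) R) where
  carrier := {f | IsLocallyConstant f ∧ ∀ g h, f (g * h) = f g + adAct ρ g (f h)}
  add_mem' := by
    rintro a b ⟨ha, ha'⟩ ⟨hb, hb'⟩
    refine ⟨ha.add hb, fun g h => ?_⟩
    rw [Pi.add_apply, Pi.add_apply, Pi.add_apply, ha', hb', map_add]
    abel
  zero_mem' := ⟨IsLocallyConstant.const 0, fun g h => by simp⟩
  smul_mem' := by
    rintro c f ⟨hf, hf'⟩
    refine ⟨hf.comp (fun X => c • X), fun g h => ?_⟩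
    rw [Pi.smul_apply, Pi.smul_apply, Pi.smul_apply, hf', smul_add, map_smul]

/-- 1-coboundaries `g ↦ g X - X`. -/
def B1 (ρ : G →* GL (Fin n) R) : Submodule R (G → Matrix (Fin n) (Fin n) R) where
  carrier := {f | ∃ X, ∀ g, f g = adAct ρ g X - X}
  add_mem' := by
    rintro a b ⟨X, hX⟩ ⟨Y, hY⟩
    refine ⟨X + Y, fun g => ?_⟩
    rw [Pi.add_apply, hX, hY, map_add]
    abel
  zero_mem' := ⟨0, fun g => by simp⟩
  smul_mem' := by
    rintro c f ⟨X, hX⟩
    refine ⟨c • X, fun g => ?_⟩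
    rw [Pi.smul_apply, hX, smul_sub, map_smul]

/-- Continuous 2-cocycles `a f(b,c) - f(ab,c) + f(a,bc) - f(a,b) = 0` with values in `ad(ρ)`. -/
def Z2 (ρ : G →* GL (Fin n) R) : Submodule R (G × G → Matrix (Fin n) (Fin n) R) where
  carrier := {f | IsLocallyConstant f ∧
    ∀ a b c, adAct ρ a (f (b, c)) - f (a * b, c) + f (a, b * c) - f (a, b) = 0}
  add_mem' := by
    rintro u v ⟨hu, hu'⟩ ⟨hv, hv'⟩
    refine ⟨hu.add hv, fun a b c => ?_⟩
    have h1 := hu' a b c
    have h2 := hv' a b c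
    simp only [Pi.add_apply, map_add]
    calc _ = (adAct ρ a (u (b, c)) - u (a * b, c) + u (a, b * c) - u (a, b)) +
        (adAct ρ a (v (b, c)) - v (a * b, c) + v (a, b * c) - v (a, b)) := by abel
      _ = 0 := by rw [h1, h2, add_zero]
  zero_mem' := ⟨IsLocallyConstant.const 0, fun a b c => by simp⟩
  smul_mem' := by
    rintro x f ⟨hf, hf'⟩
    refine ⟨hf.comp (fun X => x • X), fun a b c => ?_⟩
    simp only [Pi.smul_apply, map_smul]
    rw [← smul_sub, ← smul_add, ← smul_sub, hf', smul_zero]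

/-- Coboundaries of continuous 1-cochains `(a,b) ↦ a u(b) - u(ab) + u(a)`. -/
def B2 (ρ : G →* GL (Fin n) R) : Submodule R (G × G → Matrix (Fin n) (Fin n) R) where
  carrier := {f | ∃ u : G → Matrix (Fin n) (Fin n) R, IsLocallyConstant u ∧
    ∀ a b, f (a, b) = adAct ρ a (u b) - u (a * b) + u a}
  add_mem' := by
    rintro x y ⟨u, hu, hu'⟩ ⟨v, hv, hv'⟩
    refine ⟨u + v, hu.add hv, fun a b => ?_⟩
    simp only [Pi.add_apply, map_add, hu', hv']
    abel
  zero_mem' := ⟨0, IsLocallyConstant.const 0, fun a b => by simp⟩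
  smul_mem' := by
    rintro c f ⟨u, hu, hu'⟩
    refine ⟨fun g => c • u g, hu.comp (fun X => c • X), fun a b => ?_⟩
    simp only [Pi.smul_apply, map_smul, hu', smul_add, smul_sub]

/-- `H¹(G, ad(ρ))`. -/
def H1 (ρ : G →* GL (Fin n) R) : Type := (Z1 ρ) ⧸ ((B1 ρ).submoduleOf (Z1 ρ))

/-- `H²(G, ad(ρ))`. -/
def H2 (ρ : G →* GL (Fin n) R) : Type := (Z2 ρ) ⧸ ((B2 ρ).submoduleOf (Z2 ρ))

noncomputable instance (ρ : G →* GL (Fin n) R) : AddCommGroup (H1 ρ) :=
  Submodule.Quotient.addCommGroup _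

noncomputable instance (ρ : G →* GL (Fin n) R) : AddCommGroup (H2 ρ) :=
  Submodule.Quotient.addCommGroup _

noncomputable instance (ρ : G →* GL (Fin n) R) : Module R (H1 ρ) :=
  Submodule.Quotient.module _

noncomputable instance (ρ : G →* GL (Fin n) R) : Module R (H2 ρ) :=
  Submodule.Quotient.module _

/-- the class of a 1-cocycle -/
noncomputable def H1mk (ρ : G →* GL (Fin n) R) : Z1 ρ →ₗ[R] H1 ρ :=
  ((B1 ρ).submoduleOf (Z1 ρ)).mkQ

/-- the class of a 2-cocycle -/
noncomputable def H2mk (ρ : G →* GL (Fin n) R) : Z2 ρ →ₗ[R] H2 ρ :=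
  ((B2 ρ).submoduleOf (Z2 ρ)).mkQ

lemma H1mk_surj (ρ : G →* GL (Fin n) R) : Function.Surjective (H1mk ρ) :=
  Submodule.mkQ_surjective _

lemma H2mk_eq_zero (ρ : G →* GL (Fin n) R) (z : Z2 ρ) :
    H2mk ρ z = 0 ↔ (z : G × G → Matrix (Fin n) (Fin n) R) ∈ B2 ρ :=
  Submodule.Quotient.mk_eq_zero _

lemma card_Z1 (ρ : G →* GL (Fin n) R) :
    Nat.card (Z1 ρ) = Nat.card ((B1 ρ).submoduleOf (Z1 ρ)) * Nat.card (H1 ρ) :=
  Submodule.card_eq_card_quotient_mul_card ((B1 ρ).submoduleOf (Z1 ρ))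

end defs

section basic

variable {G : Type} [Group G] [TopologicalSpace G] [IsTopologicalGroup G]
  {R : Type} [CommRing R] {n : ℕ}

/-- A homomorphism with open kernel is locally constant. -/
lemma lc_of_ker {H : Type} [Group H] (f : G →* H) (hf : IsOpen (f.ker : Set G)) :
    IsLocallyConstant f := by
  rw [IsLocallyConstant.iff_exists_open]
  intro x
  refine ⟨(fun y => x⁻¹ * y) ⁻¹' (f.ker : Set G), hf.preimage (continuous_const_mul _), ?_, ?_⟩
  · simp
  · intro y hy
    have : f (x⁻¹ * y) = 1 := hy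
    rw [map_mul, map_inv, inv_mul_eq_one] at this
    exact this.symm

/-- `(a, b) ↦ a u(b)` is locally constant. -/
lemma lc_act (ρ : G →* GL (Fin n) R) (hρ : IsOpen (ρ.ker : Set G))
    {u : G → Matrix (Fin n) (Fin n) R} (hu : IsLocallyConstant u) :
    IsLocallyConstant (fun p : G × G => adAct ρ p.1 (u p.2)) := by
  have h1 : IsLocallyConstant (fun p : G × G => ρ p.1) :=
    (lc_of_ker ρ hρ).comp_continuous continuous_fst
  have h2 : IsLocallyConstant (fun p : G × G => u p.2) := hu.comp_continuous continuous_snd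
  exact (h1.prodMk h2).comp (fun q : GL (Fin n) R × Matrix (Fin n) (Fin n) R =>
    (q.1 : Matrix (Fin n) (Fin n) R) * q.2 * ((q.1⁻¹ : GL (Fin n) R) : Matrix (Fin n) (Fin n) R))

/-- the coboundary of a locally constant function -/
lemma lc_dd (ρ : G →* GL (Fin n) R) (hρ : IsOpen (ρ.ker : Set G))
    {u : G → Matrix (Fin n) (Fin n) R} (hu : IsLocallyConstant u) :
    IsLocallyConstant (fun p : G × G => adAct ρ p.1 (u p.2) - u (p.1 * p.2) + u p.1) :=
  ((lc_act ρ hρ hu).sub (hu.comp_continuous continuous_mul)).add (hu.comp_continuous continuous_fst)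

omit [TopologicalSpace G] [IsTopologicalGroup G] in
lemma dd_cocycle (ρ : G →* GL (Fin n) R) (u : G → Matrix (Fin n) (Fin n) R) (a b c : G) :
    adAct ρ a (adAct ρ b (u c) - u (b * c) + u b) - (adAct ρ (a * b) (u c) - u (a * b * c) + u (a * b))
      + (adAct ρ a (u (b * c)) - u (a * (b * c)) + u a) - (adAct ρ a (u b) - u (a * b) + u a) = 0 := by
  rw [map_add, map_sub, adAct_mul, mul_assoc]
  abel

/-- the coboundary map on cochains -/
def dd (ρ : G →* GL (Fin n) R) (hρ : IsOpen (ρ.ker : Set G)) :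
    LocallyConstant G (Matrix (Fin n) (Fin n) R) →+
      LocallyConstant (G × G) (Matrix (Fin n) (Fin n) R) where
  toFun u := ⟨_, lc_dd ρ hρ u.isLocallyConstant⟩
  map_zero' := by
    ext p i j
    simp
  map_add' u v := by
    apply LocallyConstant.ext
    intro p
    change adAct ρ p.1 (u p.2 + v p.2) - (u (p.1 * p.2) + v (p.1 * p.2)) + (u p.1 + v p.1) =
      (adAct ρ p.1 (u p.2) - u (p.1 * p.2) + u p.1) + (adAct ρ p.1 (v p.2) - v (p.1 * p.2) + v p.1)
    rw [map_add]
    abel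

lemma dd_apply (ρ : G →* GL (Fin n) R) (hρ : IsOpen (ρ.ker : Set G))
    (u : LocallyConstant G (Matrix (Fin n) (Fin n) R)) (a b : G) :
    dd ρ hρ u (a, b) = adAct ρ a (u b) - u (a * b) + u a := rfl

end basic

section bock

variable {G : Type} [Group G] [TopologicalSpace G] [IsTopologicalGroup G]
  {W : Type} [CommRing W] {k : Type} [Field k] {n : ℕ}

/-- entrywise reduction of matrices -/
lemma map_adAct (red : W →+* k) (ρ : G →* GL (Fin n) W) (ρbar : G →* GL (Fin n) k)
    (hred : ∀ g, Matrix.GeneralLinearGroup.map red (ρ g) = ρbar g) (g : G)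
    (X : Matrix (Fin n) (Fin n) W) :
    (adAct ρ g X).map red = adAct ρbar g (X.map red) := by
  rw [adAct_apply, adAct_apply, Matrix.map_mul, Matrix.map_mul, ← hred g]
  rfl

/-- reduction of matrices is zero iff divisible by 2 -/
lemma map_eq_zero_iff' (red : W →+* k) (hker : ∀ x : W, red x = 0 ↔ ∃ u, x = 2 * u)
    (X : Matrix (Fin n) (Fin n) W) : X.map red = 0 ↔ ∃ Y : Matrix (Fin n) (Fin n) W, X = 2 • Y := by
  constructor
  · intro h
    have h1 : ∀ i j, ∃ u, X i j = 2 * u := fun i j => (hker _).mp (congrFun (congrFun h i) j)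
    choose Y hY using h1
    refine ⟨Matrix.of Y, ?_⟩
    ext i j
    rw [hY, Matrix.smul_apply, Matrix.of_apply, nsmul_eq_mul]
    norm_num
  · rintro ⟨Y, rfl⟩
    ext i j
    rw [Matrix.map_apply, Matrix.smul_apply, Matrix.zero_apply]
    exact (hker _).mpr ⟨Y i j, by rw [nsmul_eq_mul]; norm_num⟩

/-- `f` lifts to a 1-cocycle modulo `2^m`. -/
def Liftable (red : W →+* k) (ρ : G →* GL (Fin n) W) (m : ℕ) (f : G → Matrix (Fin n) (Fin n) k) :
    Prop :=
  ∃ u : G → Matrix (Fin n) (Fin n) W, IsLocallyConstant u ∧ (∀ g, (u g).map red = f g) ∧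
    ∀ a b, ∃ Y : Matrix (Fin n) (Fin n) W, adAct ρ a (u b) - u (a * b) + u a = 2 ^ m • Y

end bock

end MC
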