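import Pool.Agent.W413.MC.Stmts
import Pool.Agent.W413.MC.Coh

/-!
# MP_cd44e0_nt: the Bockstein bound for `ad(ρ)`
-/

set_option autoImplicit false

namespace MC

open Matrix

section bock

variable {G : Type} [Group G] [TopologicalSpace G] [IsTopologicalGroup G]
  {W : Type} [CommRing W] {k : Type} [Field k] {n : ℕ}

/-- the additive group of locally constant 2-cocycles with values in `ad(ρ)` -/
def ZZ (ρ : G →* GL (Fin n) W) : AddSubgroup (LocallyConstant (G × G) (Matrix (Fin n) (Fin n) W)) where
  carrier := {f | ∀ a b c, adAct ρ a (f (b, c)) - f (a * b, c) + f (a, b * c) - f (a, b) = 0}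
  add_mem' := by
    intro u v hu hv a b c
    have h1 := hu a b c
    have h2 := hv a b c
    simp only [LocallyConstant.coe_add, Pi.add_apply, map_add]
    calc _ = (adAct ρ a (u (b, c)) - u (a * b, c) + u (a, b * c) - u (a, b)) +
        (adAct ρ a (v (b, c)) - v (a * b, c) + v (a, b * c) - v (a, b)) := by abel
      _ = 0 := by rw [h1, h2, add_zero]
  zero_mem' := by
    intro a b c
    simp
  neg_mem' := by
    intro u hu a b c
    have h1 := hu a b c
    simp only [LocallyConstant.coe_neg, Pi.neg_apply, map_neg]
    calc _ = -(adAct ρ a (u (b, c)) - u (a * b, c) + u (a, b * c) - u (a, b)) := by abel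
      _ = 0 := by rw [h1, neg_zero]

variable (red : W →+* k)

/-- reduction of 1-cochains -/
def red1 (n : ℕ) : LocallyConstant G (Matrix (Fin n) (Fin n) W) →+ (G → Matrix (Fin n) (Fin n) k) where
  toFun u g := (u g).map red
  map_zero' := by
    funext g
    ext i j
    simp
  map_add' u v := by
    funext g
    ext i j
    simp

variable {red}
variable (hsurj : Function.Surjective red) (hker : ∀ x : W, red x = 0 ↔ ∃ u, x = 2 * u)
  (htf : ∀ x : W, 2 * x = 0 → x = 0)
  (ρ : G →* GL (Fin n) W) (hρ : IsOpen (ρ.ker : Set G)) (ρbar : G →* GL (Fin n) k)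
  (hred : ∀ g, Matrix.GeneralLinearGroup.map red (ρ g) = ρbar g)

include htf in
omit [TopologicalSpace G] [IsTopologicalGroup G] in
lemma tf_mat (m : ℕ) (X : Matrix (Fin n) (Fin n) W) (h : 2 ^ m • X = 0) : X = 0 := by
  induction m with
  | zero => simpa using h
  | succ m ih =>
    apply ih
    ext i j
    have h1 := congrFun (congrFun h i) j
    rw [pow_succ', mul_smul] at h1
    rw [Matrix.zero_apply]
    apply htf
    rw [Matrix.smul_apply, Matrix.zero_apply] at h1
    rw [← h1, nsmul_eq_mul]
    norm_num

include hred in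
lemma red_cocycle (y : ZZ ρ) :
    (fun p => ((y : LocallyConstant (G × G) (Matrix (Fin n) (Fin n) W)) p).map red) ∈ Z2 ρbar := by
  refine ⟨y.1.isLocallyConstant.comp (fun X => X.map red), fun a b c => ?_⟩
  have h := congrArg (fun X : Matrix (Fin n) (Fin n) W => X.map red) (y.2 a b c)
  rw [Matrix.map_sub (hf := map_sub red), Matrix.map_add (hf := map_add red),
    Matrix.map_sub (hf := map_sub red), map_adAct red ρ ρbar hred, Matrix.map_zero _ (map_zero red)] at h
  exact h

/-- the reduction of integral cocycles -/
def redZ : ZZ ρ →+ Z2 ρbar where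
  toFun y := ⟨_, red_cocycle ρ ρbar hred y⟩
  map_zero' := by
    apply Subtype.ext
    funext p
    ext i j
    simp
  map_add' u v := by
    apply Subtype.ext
    funext p
    ext i j
    simp

/-- the map from integral cocycles to `H²` -/
noncomputable def theta : ZZ ρ →+ H2 ρbar :=
  (H2mk ρbar).toAddMonoidHom.comp (redZ ρ ρbar hred)

include hsurj hker in
lemma theta_eq_zero_iff (y : ZZ ρ) : theta ρ ρbar hred y = 0 ↔
    ∃ (u : LocallyConstant G (Matrix (Fin n) (Fin n) W))
      (v : LocallyConstant (G × G) (Matrix (Fin n) (Fin n) W)),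
      (y : LocallyConstant (G × G) (Matrix (Fin n) (Fin n) W)) = dd ρ hρ u + 2 • v := by
  classical
  change H2mk ρbar (redZ ρ ρbar hred y) = 0 ↔ _
  rw [H2mk_eq_zero]
  constructor
  · rintro ⟨ub, hub, hub'⟩
    choose s hs using hsurj
    let u : LocallyConstant G (Matrix (Fin n) (Fin n) W) := ⟨fun g => (ub g).map s,
      hub.comp (fun X => X.map s)⟩
    have hu : ∀ g, (u g).map red = ub g := by
      intro g
      ext i j
      exact hs _
    have h1 : ∀ p, ((y.1 - dd ρ hρ u) p).map red = 0 := by
      rintro ⟨a, b⟩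
      rw [LocallyConstant.coe_sub, Pi.sub_apply, Matrix.map_sub (hf := map_sub red)]
      have h2 : ((y.1 : LocallyConstant (G × G) (Matrix (Fin n) (Fin n) W)) (a, b)).map red =
        adAct ρbar a (ub b) - ub (a * b) + ub a := hub' a b
      rw [h2, dd_apply, Matrix.map_add (hf := map_add red), Matrix.map_sub (hf := map_sub red),
        map_adAct red ρ ρbar hred, hu, hu, hu, sub_self]
    have h3 : ∀ X : Matrix (Fin n) (Fin n) W, ∃ Y, X.map red = 0 → X = 2 • Y := by
      intro X
      by_cases hX : X.map red = 0
      · obtain ⟨Y, hY⟩ := (map_eq_zero_iff' red hker X).mp hX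
        exact ⟨Y, fun _ => hY⟩
      · exact ⟨0, fun h => absurd h hX⟩
    choose half hhalf using h3
    refine ⟨u, (y.1 - dd ρ hρ u).map half, ?_⟩
    apply LocallyConstant.ext
    intro p
    have h4 := hhalf _ (h1 p)
    change y.1 p = dd ρ hρ u p + 2 • half ((y.1 - dd ρ hρ u) p)
    rw [← h4, LocallyConstant.coe_sub, Pi.sub_apply]
    abel
  · rintro ⟨u, v, huv⟩
    refine ⟨fun g => (u g).map red, u.isLocallyConstant.comp (fun X => X.map red), fun a b => ?_⟩
    change ((y.1 : LocallyConstant (G × G) (Matrix (Fin n) (Fin n) W)) (a, b)).map red = _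
    have h2 : (2 • v (a, b)).map red = 0 := (map_eq_zero_iff' red hker _).mpr ⟨_, rfl⟩
    rw [huv, LocallyConstant.coe_add, Pi.add_apply]
    change (dd ρ hρ u (a, b) + 2 • v (a, b)).map red = _
    rw [Matrix.map_add (hf := map_add red), h2, add_zero, dd_apply, Matrix.map_add (hf := map_add red),
      Matrix.map_sub (hf := map_sub red), map_adAct red ρ ρbar hred]

include hsurj hker htf hρ hred in
/-- The Bockstein bound. -/
theorem card_bound (hB : StmBock) (hfin : Finite (Z1 ρbar)) (hH : Finite (H2 ρbar)) (M : ℕ) :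
    Nat.card (Z1 ρbar) ≤
      Nat.card {f : G → Matrix (Fin n) (Fin n) k | Liftable red ρ (M + 1) f} *
        Nat.card (H2 ρbar) := by
  classical
  have hset : ∀ m : ℕ, {q : G → Matrix (Fin n) (Fin n) k |
      ∃ (x : LocallyConstant G (Matrix (Fin n) (Fin n) W))
        (y : LocallyConstant (G × G) (Matrix (Fin n) (Fin n) W)),
        dd ρ hρ x = 2 ^ m • y ∧ red1 (G := G) red n x = q} = {f | Liftable red ρ m f} := by
    intro m
    ext q
    constructor
    · rintro ⟨x, y, hxy, rfl⟩
      refine ⟨x, x.isLocallyConstant, fun g => rfl, fun a b => ⟨y (a, b), ?_⟩⟩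
      have := congrArg (fun f : LocallyConstant (G × G) (Matrix (Fin n) (Fin n) W) => f (a, b)) hxy
      exact this
    · rintro ⟨u, hu, hu', hu''⟩
      have h3 : ∀ X : Matrix (Fin n) (Fin n) W, ∃ Y, (∃ Z : Matrix (Fin n) (Fin n) W,
          X = 2 ^ m • Z) → X = 2 ^ m • Y := by
        intro X
        by_cases hX : ∃ Z : Matrix (Fin n) (Fin n) W, X = 2 ^ m • Z
        · exact ⟨hX.choose, fun _ => hX.choose_spec⟩
        · exact ⟨0, fun h => absurd h hX⟩
      choose half hhalf using h3
      refine ⟨⟨u, hu⟩, (dd ρ hρ ⟨u, hu⟩).map half, ?_, funext hu'⟩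
      apply LocallyConstant.ext
      rintro ⟨a, b⟩
      exact hhalf _ (hu'' a b)
  have hset1 : {q : G → Matrix (Fin n) (Fin n) k |
      ∃ (x : LocallyConstant G (Matrix (Fin n) (Fin n) W))
        (y : LocallyConstant (G × G) (Matrix (Fin n) (Fin n) W)),
        dd ρ hρ x = 2 • y ∧ red1 (G := G) red n x = q} = (Z1 ρbar : Set _) := by
    have := hset 1
    rw [pow_one] at this
    rw [this]
    ext f
    constructor
    · rintro ⟨u, hu, hu', hu''⟩
      refine ⟨?_, fun a b => ?_⟩
      · have : f = fun g => (u g).map red := funext fun g => (hu' g).symm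
        rw [this]
        exact hu.comp (fun X => X.map red)
      · obtain ⟨Y, hY⟩ := hu'' a b
        rw [pow_one] at hY
        have h1 : (adAct ρ a (u b) - u (a * b) + u a).map red = 0 :=
          (map_eq_zero_iff' red hker _).mpr ⟨Y, hY⟩
        rw [Matrix.map_add (hf := map_add red), Matrix.map_sub (hf := map_sub red),
          map_adAct red ρ ρbar hred, hu', hu', hu'] at h1
        have h2 : f (a * b) = f (a * b) + (adAct ρbar a (f b) - f (a * b) + f a) := by
          rw [h1, add_zero]
        rw [h2]
        abel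
    · rintro ⟨hf, hf'⟩
      choose s hs using hsurj
      refine ⟨fun g => (f g).map s, hf.comp (fun X => X.map s), fun g => ?_, fun a b => ?_⟩
      · ext i j; exact hs _
      · rw [pow_one]
        apply (map_eq_zero_iff' red hker _).mp
        have hu : ∀ g, ((f g).map s).map red = f g := by
          intro g
          ext i j; exact hs _
        rw [Matrix.map_add (hf := map_add red), Matrix.map_sub (hf := map_sub red),
          map_adAct red ρ ρbar hred, hu, hu, hu, hf']
        abel
  have key := hB (LocallyConstant G (Matrix (Fin n) (Fin n) W))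
    (LocallyConstant (G × G) (Matrix (Fin n) (Fin n) W)) (G → Matrix (Fin n) (Fin n) k) (H2 ρbar)
    (dd ρ hρ) (red1 (G := G) red n) (ZZ ρ) (theta ρ ρbar hred)
    (by
      intro y hy
      apply LocallyConstant.ext
      intro p
      have h1 := congrArg (fun f : LocallyConstant (G × G) (Matrix (Fin n) (Fin n) W) => f p) hy
      have h2 : (2 ^ 1) • y p = 0 := by rw [pow_one]; exact h1
      exact tf_mat htf 1 _ h2)
    (by
      intro x
      constructor
      · intro h
        have h3 : ∀ X : Matrix (Fin n) (Fin n) W, ∃ Y, X.map red = 0 → X = 2 • Y := by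
          intro X
          by_cases hX : X.map red = 0
          · obtain ⟨Y, hY⟩ := (map_eq_zero_iff' red hker X).mp hX
            exact ⟨Y, fun _ => hY⟩
          · exact ⟨0, fun h => absurd h hX⟩
        choose half hhalf using h3
        refine ⟨x.map half, ?_⟩
        apply LocallyConstant.ext
        intro g
        exact hhalf _ (congrFun h g)
      · rintro ⟨u, rfl⟩
        funext g
        exact (map_eq_zero_iff' red hker _).mpr ⟨u g, rfl⟩)
    (by
      intro m y x hxy a b c
      apply tf_mat htf m
      have h1 : ∀ a b, 2 ^ m • y (a, b) = adAct ρ a (x b) - x (a * b) + x a := by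
        intro a b
        have := congrArg (fun f : LocallyConstant (G × G) (Matrix (Fin n) (Fin n) W) => f (a, b)) hxy
        exact this.symm
      rw [smul_sub, smul_add, smul_sub, ← map_nsmul, h1, h1, h1, h1]
      exact dd_cocycle ρ x a b c)
    (fun y => theta_eq_zero_iff hsurj hker ρ hρ ρbar hred y)
    hH
    (by
      rw [hset1]
      exact Set.toFinite _)
    M
  rw [hset1, hset (M + 1)] at key
  exact key

end bock

end MC
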