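import Pool.Agent.W413.MC.Props
import Pool.Agent.W566.MZ.Pre
import Pool.Agent.W413.MZ.FN
import Pool.Agent.W413.MZ.FM
import Pool.Agent.W413.MZ.FP

/-!
# MP_cd44e0_nt: `dim R/2R ≥ 2` for the concrete representation (from the parts of MP_aa8fd2_nt)
-/

set_option autoImplicit false
set_option linter.style.haveILetI false
set_option linter.unusedSectionVars false

namespace MC

open MZ MZ294 NumberField IsDedekindDomain

theorem stmL_holds : StmL := MZ294.stmL MZ413.stmN MZ413.stmM MZ413.stmP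

theorem dim_ge (w : GaloisField 2 2) (hw : w ^ 2 + w + 1 = 0) (hw3 : w ^ 3 = 1)
    (R : CNL 2 (GaloisField 2 2)) (ρu : GFS Om S30 →* GL (Fin 3) R.A)
    (hu : IsUniversal (DS.rho w hw3) R ρu) :
    2 ≤ ringKrullDim (R.A ⧸ Ideal.span {((2 : ℕ) : R.A)}) := by
  have hK1 : StmK1 := Pool.Agent.W343.MZ.stmK1
  have hK2 : StmK2 := Pool.Agent.W343.MZ.stmK2
  have hK3 : StmK3 := Pool.Agent.W47.MZK3.k3
  have hK7 : StmK7 := Pool.Agent.W178.MZK.K7
  have hT : StmT := Pool.Agent.W384.MZTF.stmT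
  have hLim : StmLim := Pool.Agent.W402.MZ.Lim.lim
  have hSZ : StmSZ := Pool.Agent.W462.MZSZ.StmSZ
  have hK4 : StmK4 := Pool.Agent.W368.MZK4.t_K4 hK3
  have hK5 : StmK5 := Pool.Agent.W266.MZK5.t_K5
  have hK6 : StmK6 := Pool.Agent.W178.MZK.K6
  have hK8 : StmK8 := Pool.Agent.W561.MZK8.stmK8 W289.MZ.stmFrat hK1 hK2 hK3
  have hDim : StmDim := Pool.Agent.W313.MZDim.stmDim
  obtain ⟨hfd, hgal, h9, hreal, hunr, hNF, htwo⟩ := stmL_holds
  haveI : IsAlgClosure Lf Om := ⟨inferInstance, Algebra.IsAlgebraic.tower_top (K := F5) Lf⟩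
  haveI hG1 : IsGalois F5 (Linf Lf Om) := hK1.2 F5 Lf Om hgal
  haveI hG2 : IsGalois Lf (Linf Lf Om) := hK1.2 Lf Lf Om inferInstance
  haveI hG3 : IsGalois F5 (FSmax S30 : IntermediateField F5 Om) := hK7 F5 Om S30
  have hle : (Linf Lf Om).restrictScalars F5 ≤ FSmax S30 := hK6 F5 Om S30 two_mem_S30 Lf hunr
  let inc : (Linf Lf Om) →+* (FSmax S30 : IntermediateField F5 Om) :=
    { toFun := fun x => ⟨(x : Om), hle x.2⟩
      map_one' := rfl
      map_mul' := fun _ _ => rfl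
      map_zero' := rfl
      map_add' := fun _ _ => rfl }
  letI : Algebra (Linf Lf Om) (FSmax S30 : IntermediateField F5 Om) := inc.toAlgebra
  haveI : IsScalarTower F5 (Linf Lf Om) (FSmax S30 : IntermediateField F5 Om) :=
    IsScalarTower.of_algebraMap_eq (fun x => Subtype.ext rfl)
  -- √2
  obtain ⟨r₀, hr₀⟩ : ∃ r : Om, r ^ 2 = 2 := IsAlgClosed.exists_pow_nat_eq 2 (by norm_num)
  have hr₀mem : r₀ ∈ Linf Lf Om := by
    refine hK1.1 Lf Om 2 r₀ ?_ ⟨two_ne_zero, 1, ?_, ?_⟩ hr₀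
    · have := (Linf Lf Om).algebraMap_mem (2 : Lf)
      rwa [map_ofNat] at this
    · have : (2 ^ 1 * 2 : Om) = algebraMap ℤ Om 4 := by norm_num
      rw [this]; exact isIntegral_algebraMap
    · have : (2 ^ 1 * 2⁻¹ : Om) = 1 := by norm_num
      rw [this]; exact isIntegral_one
  have hr2 : (⟨r₀, hr₀mem⟩ : Linf Lf Om) ^ 2 = 2 := Subtype.ext hr₀
  have hrn : (⟨r₀, hr₀mem⟩ : Linf Lf Om) ∉ (algebraMap Lf (Linf Lf Om)).range := by
    rintro ⟨x, hx⟩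
    refine no_sqrt2_Lf h9 x ?_
    apply (algebraMap Lf (Linf Lf Om)).injective
    rw [map_pow, hx, hr2, map_ofNat]
  obtain ⟨-, -, ⟨gT, hgT⟩, -⟩ := rho_props w hw hw3
  obtain ⟨g₁, g₂, s₁, s₂, hs₁, hs₂, hfam⟩ := asm2 hT hLim hSZ (F := F5) (L := Lf)
    (E := Linf Lf Om) (K := (FSmax S30 : IntermediateField F5 Om)) h9 hreal ⟨r₀, hr₀mem⟩ hr2 hrn
    (hK2 Lf Om)
    (fun φ c h1 h2 N hN hNo => by
      have e1 := hK4 Lf Om N hNo
      rw [hK5 Lf Om hreal φ c h1 h2 N hN hNo] at e1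
      exact e1)
    (fun φ c σ h1 h2 h3 => hK8 Lf Om hreal htwo φ c σ h1 h2 h3)
    (DS.rho w hw3) w (DS.rho_ker_open w hw3)
    (fun g hg => by
      obtain ⟨h1, h2⟩ := fix_Lf g (fun x hx => hg ⟨(x : Om), hx⟩)
      rw [DS.rho_coe, h1]
      exact wt_scalar w _ h2)
    ⟨gT, hgT⟩
  haveI : Fact (Nat.Prime 2) := ⟨Nat.prime_two⟩
  exact hDim 2 (GaloisField 2 2) (GFS Om S30) 3 (DS.rho w hw3) g₁ g₂ s₁ s₂ hs₁ hs₂ hfam R ρu hu

end MC
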