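import Pool.Agent.W413.MC.Main
import Pool.Agent.W413.MC.Dim
import Pool.Agent.W294.MZ.ExFinal
import Pool.Agent.W45.MC.Bock
import Pool.Agent.W45.MC.Tame
import Pool.Agent.W880.MC.Char

/-!
# MP_cd44e0_nt: the conjecture `dim R/pR = h¹ - h²` and its disproof
-/

set_option autoImplicit false

namespace MC

open MZ MZ294 NumberField IsDedekindDomain

/-- The data of the problem: `S` a finite set of places of `K` containing all places above `p`
(and all archimedean places), `ρbar : G_{K,S} → GL_n(k)` continuous and absolutely irreducible. -/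
def IsDatumH (K Ω : Type) [Field K] [NumberField K] [Field Ω] [Algebra K Ω]
    (S : Set (HeightOneSpectrum (𝓞 K))) (p : ℕ) (k : Type) [Field k] (n : ℕ)
    (ρbar : GFS Ω S →* GL (Fin n) k) : Prop :=
  1 ≤ n ∧ S.Finite ∧ (∀ v : HeightOneSpectrum (𝓞 K), (p : 𝓞 K) ∈ v.asIdeal → v ∈ S) ∧
  IsOpen (ρbar.ker : Set (GFS Ω S)) ∧ AbsIrred ρbar

/-- `dim R/pR = h¹(G, ad) - h²(G, ad)` for every universal deformation ring `R` of `ρbar`. -/
def EqH {G : Type} [Group G] [TopologicalSpace G] (p : ℕ) [Fact p.Prime] {k : Type} [Field k]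
    [CharP k p] {n : ℕ} (ρbar : G →* GL (Fin n) k) : Prop :=
  ∀ (R : CNL p k) (ρu : G →* GL (Fin n) R.A), IsUniversal ρbar R ρu →
    ∃ d : ℕ, ringKrullDim (R.A ⧸ Ideal.span {(p : R.A)}) = d ∧
      Module.rank k (H1 ρbar) = Module.rank k (H2 ρbar) + d

/-- Mazur's conjecture in the form of the problem: if `S` contains the places above `p` and `∞`,
then `R/pR` has Krull dimension `h¹(G_{K,S}, ad) - h²(G_{K,S}, ad)` for the universal deformation
ring `R`. -/
def MazurH : Prop :=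
  ∀ (K Ω : Type) [Field K] [NumberField K] [Field Ω] [Algebra K Ω] [IsAlgClosure K Ω]
    (S : Set (HeightOneSpectrum (𝓞 K))) (p : ℕ) [Fact p.Prime]
    (k : Type) [Field k] [Finite k] [CharP k p] (n : ℕ)
    (ρbar : GFS Ω S →* GL (Fin n) k),
    IsDatumH K Ω S p k n ρbar → EqH p ρbar

/-- The universal deformation ring exists and `dim R/2R ≥ 2` for every such ring `R`. -/
def DimGe {G : Type} [Group G] [TopologicalSpace G] {k : Type} [Field k]
    [CharP k 2] {n : ℕ} (ρbar : G →* GL (Fin n) k) : Prop :=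
  (∃ (R : CNL 2 k) (ρu : G →* GL (Fin n) R.A), IsUniversal ρbar R ρu) ∧
  ∀ (R : CNL 2 k) (ρu : G →* GL (Fin n) R.A), IsUniversal ρbar R ρu →
    2 ≤ ringKrullDim (R.A ⧸ Ideal.span {((2 : ℕ) : R.A)})

/-- `h¹(G, ad) < ∞` and `h¹(G, ad) ≤ h²(G, ad) + 1`. -/
def CohLe {G : Type} [Group G] [TopologicalSpace G] {k : Type} [Field k]
    {n : ℕ} (ρbar : G →* GL (Fin n) k) : Prop :=
  Module.Finite k (H1 ρbar) ∧ Module.rank k (H1 ρbar) ≤ Module.rank k (H2 ρbar) + 1

/-- The counterexample. -/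
def CounterexampleH : Prop :=
  ∃ (K Ω : Type) (_ : Field K) (_ : NumberField K) (_ : Field Ω) (_ : Algebra K Ω)
    (_ : IsAlgClosure K Ω) (S : Set (HeightOneSpectrum (𝓞 K)))
    (k : Type) (_ : Field k) (_ : Finite k) (_ : CharP k 2)
    (ρbar : GFS Ω S →* GL (Fin 3) k),
    (∃ s : K, s ^ 2 = 5 ∧ IntermediateField.adjoin ℚ {s} = ⊤) ∧
    IsDatumH K Ω S 2 k 3 ρbar ∧ DimGe ρbar ∧ CohLe ρbar

theorem counterexampleH : CounterexampleH := by
  obtain ⟨w, hw⟩ := exists_omega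
  have hw3 : w ^ 3 = 1 := by linear_combination (w - 1) * hw
  have hL := stmL_holds
  obtain ⟨hirr, -, -, -⟩ := rho_props w hw hw3
  haveI : IsGalois F5 (FSmax S30 : IntermediateField F5 Om) := Pool.Agent.W178.MZK.K7 F5 Om S30
  have hopen := DS.rho_ker_open w hw3
  have hcoh := coh_bound Pool.Agent.W45.MCB.main
    (Pool.Agent.W880.MCChar.stmChar Pool.Agent.W45.MCT.main) MZEX.stmExH hL w hw hw3
  refine ⟨F5, Om, inferInstance, inferInstance, inferInstance, inferInstance, inferInstance, S30,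
    GaloisField 2 2, inferInstance, inferInstance, inferInstance, DS.rho w hw3, ?_,
    ⟨by norm_num, S30_finite, fun v hv => two_mem_S30 v (by exact_mod_cast hv), hopen, hirr⟩,
    ⟨?_, dim_ge w hw hw3⟩, hcoh⟩
  · refine ⟨⟨s5, IntermediateField.mem_adjoin_simple_self ℚ s5⟩, Subtype.ext s5_sq, ?_⟩
    rw [eq_top_iff]
    rintro ⟨x, hx⟩ -
    obtain ⟨a, b, hab⟩ := mem_F5 x hx
    have : (⟨x, hx⟩ : F5) = algebraMap ℚ F5 a + algebraMap ℚ F5 b *
        ⟨s5, IntermediateField.mem_adjoin_simple_self ℚ s5⟩ := by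
      apply Subtype.ext
      exact hab
    rw [this]
    exact add_mem (IntermediateField.algebraMap_mem _ _)
      (mul_mem (IntermediateField.algebraMap_mem _ _) (IntermediateField.mem_adjoin_simple_self ℚ _))
  · exact MZEX.stmEx F5 Om S30 S30_finite two_mem_S30 (GaloisField 2 2) 3 (by norm_num)
      (DS.rho w hw3) hopen hirr

theorem not_mazurH (h : CounterexampleH) : ¬ MazurH := by
  intro hM
  obtain ⟨K, Ω, iK, iN, iΩ, iA, iC, S, k, ik, iFin, iP, ρbar, -, hD, ⟨⟨R, ρu, hu⟩, hR⟩, hfin, hrank⟩ := h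
  haveI : Fact (Nat.Prime 2) := ⟨Nat.prime_two⟩
  obtain ⟨d, hd, hd'⟩ := hM K Ω S 2 k 3 ρbar hD R ρu hu
  have h2 := hR R ρu hu
  rw [hd] at h2
  have h2' : 2 ≤ d := by exact_mod_cast h2
  haveI := hfin
  have h1 : Module.rank k (H1 ρbar) < Cardinal.aleph0 := Module.rank_lt_aleph0 k _
  obtain ⟨a, ha⟩ := Cardinal.lt_aleph0.mp h1
  have h3 : Module.rank k (H2 ρbar) < Cardinal.aleph0 := by
    refine lt_of_le_of_lt ?_ h1
    rw [hd']
    exact self_le_add_right _ _
  obtain ⟨b, hb⟩ := Cardinal.lt_aleph0.mp h3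
  rw [ha, hb] at hd' hrank
  have e1 : a = b + d := by exact_mod_cast hd'
  have e2 : a ≤ b + 1 := by exact_mod_cast hrank
  omega

end MC
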