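import Pool.Agent.W413.MC.Bound

/-!
# MP_cd44e0_nt: the liftable classes, and `h¹ ≤ h² + 1`
-/

set_option autoImplicit false
set_option linter.style.haveILetI false
set_option linter.unusedSectionVars false

namespace MC

open Matrix

section

variable {G : Type} [Group G] [TopologicalSpace G] [IsTopologicalGroup G]
  {k : Type} [Field k] {n : ℕ}

lemma z1_one (ρbar : G →* GL (Fin n) k) {f : G → Matrix (Fin n) (Fin n) k} (hf : f ∈ Z1 ρbar) :
    f 1 = 0 := by
  have := hf.2 1 1
  rw [mul_one, adAct_one] at this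
  exact (left_eq_add.mp this)

/-- conjugation formula for a cocycle on a normal subgroup acting trivially -/
lemma z1_conj (ρbar : G →* GL (Fin n) k) {f : G → Matrix (Fin n) (Fin n) k} (hf : f ∈ Z1 ρbar)
    (H : Subgroup G) (hHn : H.Normal) (hH : ∀ h ∈ H, ∀ X, adAct ρbar h X = X) (g h : G) (hh : h ∈ H) :
    f (g * h * g⁻¹) = adAct ρbar g (f h) := by
  have h1 : f (g * h * g⁻¹) = f (g * h * g⁻¹ * g) - adAct ρbar (g * h * g⁻¹) (f g) := by
    rw [hf.2 (g * h * g⁻¹) g, add_sub_cancel_right]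
  rw [h1, hH _ (hHn.conj_mem h hh g), inv_mul_cancel_right, hf.2 g h, add_sub_cancel_left]

/-- A cocycle vanishing on a normal subgroup of finite odd index is a coboundary (char 2). -/
lemma z1_odd [CharP k 2] (ρbar : G →* GL (Fin n) k) {f : G → Matrix (Fin n) (Fin n) k}
    (hf : f ∈ Z1 ρbar) (H : Subgroup G) (hfin : Finite (G ⧸ H)) (hodd : Odd (Nat.card (G ⧸ H)))
    (h0 : ∀ h ∈ H, f h = 0) : f ∈ B1 ρbar := by
  classical
  haveI : Fintype (G ⧸ H) := Fintype.ofFinite _
  have hc : ∀ g h : G, h ∈ H → f (g * h) = f g := by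
    intro g h hh
    rw [hf.2, h0 h hh, map_zero, add_zero]
  let F : G ⧸ H → Matrix (Fin n) (Fin n) k := fun q => f q.out
  have hF : ∀ g : G, F (g : G ⧸ H) = f g := by
    intro g
    obtain ⟨h, hh⟩ := QuotientGroup.mk_out_eq_mul H g
    change f _ = f g
    rw [hh]
    exact hc g h h.2
  refine ⟨-∑ q, F q, fun g => ?_⟩
  have h1 : ∑ q : G ⧸ H, F (g • q) = ∑ q, F q :=
    Equiv.sum_comp (MulAction.toPerm g) F
  have h2 : ∀ q : G ⧸ H, F (g • q) = f g + adAct ρbar g (F q) := by
    intro q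
    obtain ⟨a, rfl⟩ := QuotientGroup.mk_surjective q
    have : g • (a : G ⧸ H) = ((g * a : G) : G ⧸ H) := rfl
    rw [this, hF, hF, hf.2]
  rw [Finset.sum_congr rfl (fun q _ => h2 q), Finset.sum_add_distrib, ← map_sum,
    Finset.sum_const, Finset.card_univ, ← Nat.card_eq_fintype_card] at h1
  have h3 : Nat.card (G ⧸ H) • f g = f g := by
    obtain ⟨a, ha⟩ := hodd
    rw [ha, add_smul, one_smul, mul_comm, mul_smul]
    have : (2 : ℕ) • f g = 0 := by
      ext i j
      rw [Matrix.smul_apply, nsmul_eq_mul, Matrix.zero_apply]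
      have : ((2 : ℕ) : k) = 0 := CharP.cast_eq_zero k 2
      rw [this, zero_mul]
    rw [this, smul_zero, zero_add]
  rw [h3] at h1
  rw [map_neg, eq_sub_of_add_eq h1]
  abel

/-- The liftable cocycles. -/
theorem liftable_form {W : Type} [CommRing W] {red : W →+* k} [CharP k 2]
    (hker : ∀ x : W, red x = 0 ↔ ∃ u, x = 2 * u)
    (ρ : G →* GL (Fin n) W) (ρbar : G →* GL (Fin n) k)
    (hred : ∀ g, Matrix.GeneralLinearGroup.map red (ρ g) = ρbar g)
    (H : Subgroup G) (hHn : H.Normal) (hfin : Finite (G ⧸ H)) (hodd : Odd (Nat.card (G ⧸ H)))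
    (hH : ∀ h ∈ H, ∀ X, adAct ρ h X = X) (hHb : ∀ h ∈ H, ∀ X, adAct ρbar h X = X)
    (χ : G →* Multiplicative (ZMod 2)) (hχo : IsOpen (χ.ker : Set G))
    (h₀ : G) (hh₀ : h₀ ∈ H) (hχh₀ : χ h₀ ≠ 1)
    (hschur : ∀ X : Matrix (Fin n) (Fin n) k, (∀ g, adAct ρbar g X = X) → ∃ c : k, X = c • 1)
    (m : ℕ) (hm : 1 ≤ m)
    (hchar : ∀ u : G → Matrix (Fin n) (Fin n) W, IsLocallyConstant u →
      (∀ a ∈ H, ∀ b ∈ H, ∃ Y : Matrix (Fin n) (Fin n) W, u (a * b) = u a + u b + 2 ^ m • Y) →
      ∀ g ∈ H, χ g = 1 → (u g).map red = 0)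
    (f : G → Matrix (Fin n) (Fin n) k) (hf : Liftable red ρ m f) :
    ∃ b ∈ B1 ρbar, ∃ c : k, f = b + fun g => if χ g = 1 then 0 else c • 1 := by
  classical
  obtain ⟨u, hu, hu', hu''⟩ := hf
  have hfZ : f ∈ Z1 ρbar := by
    refine ⟨?_, fun a b => ?_⟩
    · have : f = fun g => (u g).map red := funext fun g => (hu' g).symm
      rw [this]
      exact hu.comp (fun X => X.map red)
    · obtain ⟨Y, hY⟩ := hu'' a b
      have h1 : (adAct ρ a (u b) - u (a * b) + u a).map red = 0 := by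
        apply (map_eq_zero_iff' red hker _).mpr
        refine ⟨2 ^ (m - 1) • Y, ?_⟩
        rw [hY, smul_smul, ← pow_succ', Nat.sub_add_cancel hm]
      rw [Matrix.map_add (hf := map_add red), Matrix.map_sub (hf := map_sub red),
        map_adAct red ρ ρbar hred, hu', hu', hu'] at h1
      have h2 : f (a * b) = f (a * b) + (adAct ρbar a (f b) - f (a * b) + f a) := by
        rw [h1, add_zero]
      rw [h2]
      abel
  have hf0 : ∀ g ∈ H, χ g = 1 → f g = 0 := by
    intro g hg hχ
    rw [← hu']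
    refine hchar u hu ?_ g hg hχ
    intro a ha b hb
    obtain ⟨Y, hY⟩ := hu'' a b
    refine ⟨-Y, ?_⟩
    rw [hH a ha] at hY
    rw [smul_neg, ← hY]
    abel
  have hX : ∀ h ∈ H, χ h ≠ 1 → f h = f h₀ := by
    intro h hh hχ
    have h1 : χ (h * h₀⁻¹) = 1 := by
      rw [map_mul, map_inv]
      have two_el : ∀ a b : Multiplicative (ZMod 2), a ≠ 1 → b ≠ 1 → a * b⁻¹ = 1 := by decide
      exact two_el _ _ hχ hχh₀
    have h2 := hf0 _ (H.mul_mem hh (H.inv_mem hh₀)) h1
    have h3 := hfZ.2 (h * h₀⁻¹) h₀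
    rw [inv_mul_cancel_right, h2, zero_add, hHb _ (H.mul_mem hh (H.inv_mem hh₀))] at h3
    exact h3
  obtain ⟨c, hc⟩ := hschur (f h₀) (by
    intro g
    rw [← z1_conj ρbar hfZ H hHn hHb g h₀ hh₀]
    apply hX _ (hHn.conj_mem h₀ hh₀ g)
    rw [map_mul, map_mul, map_inv, mul_inv_cancel_comm]
    exact hχh₀)
  -- the cocycle `c χ`
  let e : G → Matrix (Fin n) (Fin n) k := fun g => if χ g = 1 then 0 else c • 1
  have he : ∀ g, e g = if χ g = 1 then 0 else c • 1 := fun g => rfl
  have hscal : ∀ (g : G) (x : k), adAct ρbar g (x • 1) = x • 1 := by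
    intro g x
    rw [map_smul, adAct_apply, Matrix.mul_one, ← Units.val_mul, mul_inv_cancel, Units.val_one]
  have heZ : e ∈ Z1 ρbar := by
    refine ⟨?_, fun a b => ?_⟩
    · have h1 : IsLocallyConstant χ := lc_of_ker χ hχo
      have h2 : e = (fun x : Multiplicative (ZMod 2) => if x = 1 then (0 : Matrix (Fin n) (Fin n) k)
        else c • 1) ∘ χ := funext he
      rw [h2]
      exact h1.comp _
    · have h2 : c • (1 : Matrix (Fin n) (Fin n) k) + c • 1 = 0 := by
        rw [← add_smul, CharTwo.add_self_eq_zero, zero_smul]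
      have two_mul : ∀ a b : Multiplicative (ZMod 2), a ≠ 1 → b ≠ 1 → a * b = 1 := by decide
      rw [he, he, he, map_mul]
      by_cases ha : χ a = 1 <;> by_cases hb : χ b = 1
      · simp [ha, hb]
      · rw [if_neg hb, hscal]
        simp [ha, hb]
      · rw [if_pos hb, map_zero, if_neg ha]
        simp [ha, hb]
      · rw [if_neg ha, if_neg hb, if_pos (two_mul _ _ ha hb), hscal, h2]
  have hf' : f - e ∈ B1 ρbar := by
    refine z1_odd ρbar ((Z1 ρbar).sub_mem hfZ heZ) H hfin hodd ?_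
    intro h hh
    rw [Pi.sub_apply, he]
    by_cases hχ : χ h = 1
    · rw [if_pos hχ, hf0 h hh hχ, sub_zero]
    · rw [if_neg hχ, hX h hh hχ, hc, sub_self]
  exact ⟨f - e, hf', c, (sub_add_cancel f e).symm⟩

/-- Finitely many cocycles. -/
theorem finite_Z1 [Finite k] [CharP k 2] (ρbar : G →* GL (Fin n) k)
    (H : Subgroup G) (hfin : Finite (G ⧸ H)) (hHb : ∀ h ∈ H, ∀ X, adAct ρbar h X = X)
    (hq : Finite {χ : H →* Multiplicative (ZMod 2) // IsOpen (χ.ker : Set H)}) :
    Finite (Z1 ρbar) := by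
  classical
  letI : Algebra (ZMod 2) k := ZMod.algebra k 2
  let Mk := Matrix (Fin n) (Fin n) k
  haveI : Finite Mk := inferInstance
  haveI : Finite (Module.Dual (ZMod 2) Mk) := Module.finite_of_finite (ZMod 2)
  -- the restriction to `H` composed with functionals
  let Φ : Z1 ρbar → (Module.Dual (ZMod 2) Mk → {χ : H →* Multiplicative (ZMod 2) //
      IsOpen (χ.ker : Set H)}) × (G ⧸ H → Mk) := fun f =>
    (fun l => ⟨{ toFun := fun h => Multiplicative.ofAdd (l (f.1 h))
                 map_one' := by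
                  rw [Subgroup.coe_one, z1_one ρbar f.2, map_zero]; rfl
                 map_mul' := fun a b => by
                  rw [Subgroup.coe_mul, f.2.2, hHb a a.2, map_add]; rfl }, by
        have h1 : IsLocallyConstant (fun h : H => l (f.1 h)) :=
          (f.2.1.comp_continuous continuous_subtype_val).comp l
        have h2 := h1 {0}
        convert h2 using 1
        ext h
        constructor
        · intro hh
          exact Multiplicative.ofAdd.injective hh
        · intro hh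
          have : l (f.1 h) = 0 := hh
          change Multiplicative.ofAdd (l (f.1 h)) = 1
          rw [this]; rfl⟩, fun q => f.1 q.out)
  refine Finite.of_injective Φ ?_
  intro f f' h
  have h1 := congrArg Prod.fst h
  have h2 := congrArg Prod.snd h
  have h3 : ∀ x ∈ H, f.1 x = f'.1 x := by
    intro x hx
    rw [← sub_eq_zero, ← Module.forall_dual_apply_eq_zero_iff (ZMod 2)]
    intro l
    have h4 := DFunLike.congr_fun (congrArg Subtype.val (congrFun h1 l)) ⟨x, hx⟩
    have h5 : l (f.1 x) = l (f'.1 x) := Multiplicative.ofAdd.injective h4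
    rw [map_sub, h5, sub_self]
  apply Subtype.ext
  funext g
  obtain ⟨x, hx⟩ := QuotientGroup.mk_out_eq_mul H g
  have h4 : f.1 ((g : G ⧸ H).out) = f'.1 ((g : G ⧸ H).out) := congrFun h2 (g : G ⧸ H)
  rw [hx] at h4
  have h5 : f.1 g = f.1 (g * x * (x : G)⁻¹) := by rw [mul_inv_cancel_right]
  have h6 : f'.1 g = f'.1 (g * x * (x : G)⁻¹) := by rw [mul_inv_cancel_right]
  rw [h5, h6, f.2.2, f'.2.2, h4, h3 _ (H.inv_mem x.2)]

omit [IsTopologicalGroup G] in
lemma B1_le (ρbar : G →* GL (Fin n) k) (hρ : IsLocallyConstant ρbar) : B1 ρbar ≤ Z1 ρbar := by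
  rintro f ⟨X, hX⟩
  refine ⟨?_, fun a b => ?_⟩
  · have : f = (fun q : GL (Fin n) k => (q : Matrix (Fin n) (Fin n) k) * X *
        ((q⁻¹ : GL (Fin n) k) : Matrix (Fin n) (Fin n) k) - X) ∘ ρbar := by
      funext g
      rw [hX g]; rfl
    rw [this]
    exact hρ.comp _
  · rw [hX, hX, hX, map_sub, adAct_mul]
    abel

/-- `h¹ ≤ h² + 1`. -/
theorem rank_bound [Finite k] [CharP k 2] (ρbar : G →* GL (Fin n) k)
    (hρb : IsOpen (ρbar.ker : Set G)) (hfin : Finite (Z1 ρbar))
    (χ : G →* Multiplicative (ZMod 2)) (L : Set (G → Matrix (Fin n) (Fin n) k))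
    (hL : ∀ f ∈ L, ∃ b ∈ B1 ρbar, ∃ c : k, f = b + fun g => if χ g = 1 then 0 else c • 1)
    (hcard : Finite (H2 ρbar) → Nat.card (Z1 ρbar) ≤ Nat.card L * Nat.card (H2 ρbar)) :
    Module.Finite k (H1 ρbar) ∧ Module.rank k (H1 ρbar) ≤ Module.rank k (H2 ρbar) + 1 := by
  classical
  have h1fin : Finite (H1 ρbar) := Finite.of_surjective _ (H1mk_surj ρbar)
  haveI : Module.Finite k (H1 ρbar) := Module.Finite.of_finite
  refine ⟨inferInstance, ?_⟩
  by_cases hH2 : Module.Finite k (H2 ρbar)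
  · haveI : Finite (H2 ρbar) := Module.finite_of_finite k
    have hc := hcard inferInstance
    -- bound of L
    haveI hBfin : Finite (B1 ρbar) :=
      Set.Finite.subset (s := (Z1 ρbar : Set _)) (Set.toFinite _) (B1_le ρbar (lc_of_ker ρbar hρb))
    have hLc : Nat.card L ≤ Nat.card (B1 ρbar × k) := by
      choose! b hb c hbc using hL
      refine Nat.card_le_card_of_injective (fun f : L => ((⟨b f, hb f f.2⟩ : B1 ρbar), c f)) ?_
      intro f f' h
      have h1 : b f = b f' := congrArg Subtype.val (congrArg Prod.fst h)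
      have h2 : c f = c f' := congrArg Prod.snd h
      apply Subtype.ext
      rw [hbc f f.2, hbc f' f'.2, h1, h2]
    rw [Nat.card_prod] at hLc
    have hZ : Nat.card (Z1 ρbar) = Nat.card ((B1 ρbar).submoduleOf (Z1 ρbar)) * Nat.card (H1 ρbar) :=
      card_Z1 ρbar
    have hB : Nat.card ((B1 ρbar).submoduleOf (Z1 ρbar)) = Nat.card (B1 ρbar) :=
      Nat.card_congr (Submodule.submoduleOfEquivOfLe (B1_le ρbar (lc_of_ker ρbar hρb))).toEquiv
    have hBpos : 0 < Nat.card (B1 ρbar) := Nat.card_pos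
    have h3 : Nat.card (H1 ρbar) ≤ Nat.card k * Nat.card (H2 ρbar) := by
      have h4 : Nat.card (B1 ρbar) * Nat.card (H1 ρbar) ≤
          Nat.card (B1 ρbar) * (Nat.card k * Nat.card (H2 ρbar)) := by
        calc _ = Nat.card (Z1 ρbar) := by rw [hZ, hB]
          _ ≤ Nat.card L * Nat.card (H2 ρbar) := hc
          _ ≤ (Nat.card (B1 ρbar) * Nat.card k) * Nat.card (H2 ρbar) := Nat.mul_le_mul_right _ hLc
          _ = _ := by ring
      exact Nat.le_of_mul_le_mul_left h4 hBpos
    rw [Module.natCard_eq_pow_finrank (K := k) (V := H1 ρbar),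
      Module.natCard_eq_pow_finrank (K := k) (V := H2 ρbar), ← pow_succ'] at h3
    have h5 : 1 < Nat.card k := Finite.one_lt_card
    have h6 := (Nat.pow_le_pow_iff_right h5).mp h3
    rw [← Module.finrank_eq_rank, ← Module.finrank_eq_rank]
    exact_mod_cast h6
  · have h1 : Cardinal.aleph0 ≤ Module.rank k (H2 ρbar) := by
      by_contra hcon
      push Not at hcon
      exact hH2 (Module.rank_lt_aleph0_iff.mp hcon)
    have h2 : Module.rank k (H1 ρbar) < Cardinal.aleph0 := Module.rank_lt_aleph0 k _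
    exact (h2.le.trans h1).trans (self_le_add_right _ _)

end

end MC
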