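import Pool.Agent.W413.MC.Props

/-!
# MP_cd44e0_nt: `h¹ ≤ h² + 1` for the concrete representation
-/

set_option autoImplicit false
set_option linter.style.haveILetI false
set_option linter.unusedSectionVars false

namespace MC

open MZ MZ294 NumberField IsDedekindDomain Matrix

/-- `(hchar)` from StmChar, abstractly. -/
lemma hchar_of {G P : Type} [Group G] [TopologicalSpace G] [IsTopologicalGroup G] [Group P]
    [TopologicalSpace P] [IsTopologicalGroup P] (j : P →* G) (hj : Continuous j)
    {W k : Type} [CommRing W] [Field k] [CharP k 2] {n : ℕ} (red : W →+* k)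
    (hker : ∀ x : W, red x = 0 ↔ ∃ u, x = 2 * u) (htf : ∀ x : W, 2 * x = 0 → x = 0)
    (m : ℕ) (hm : 2 ≤ m) (D : P → Prop)
    (hc : ∀ (A : Type) [AddCommGroup A] (f : P →* Multiplicative A)
      (μ : A →+ ZMod 2), IsOpen (f.ker : Set P) → (∀ a : A, 2 ^ m • a = 0) →
      (∀ a : A, 2 ^ (m - 1) • a = 0 → μ a = 0) →
      ∀ g : P, D g → μ (Multiplicative.toAdd (f g)) = 0)
    (u : G → Matrix (Fin n) (Fin n) W) (hu : IsLocallyConstant u)
    (hu' : ∀ a ∈ j.range, ∀ b ∈ j.range, ∃ Y : Matrix (Fin n) (Fin n) W,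
      u (a * b) = u a + u b + 2 ^ m • Y) (p : P) (hp : D p) : (u (j p)).map red = 0 := by
  classical
  letI : Algebra (ZMod 2) k := ZMod.algebra k 2
  let S : AddSubgroup (Matrix (Fin n) (Fin n) W) :=
    (nsmulAddMonoidHom (α := Matrix (Fin n) (Fin n) W) (2 ^ m)).range
  let A := Matrix (Fin n) (Fin n) W ⧸ S
  have hS : ∀ X, X ∈ S ↔ ∃ Y : Matrix (Fin n) (Fin n) W, 2 ^ m • Y = X := fun X => Iff.rfl
  have hadd : ∀ a b : P, (QuotientAddGroup.mk (u (j (a * b))) : A) =
      QuotientAddGroup.mk (u (j a)) + QuotientAddGroup.mk (u (j b)) := by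
    intro a b
    obtain ⟨Y, hY⟩ := hu' (j a) ⟨a, rfl⟩ (j b) ⟨b, rfl⟩
    rw [map_mul, hY, ← QuotientAddGroup.mk_add]
    rw [QuotientAddGroup.eq, hS]
    exact ⟨-Y, by rw [smul_neg]; abel⟩
  have h1 : (QuotientAddGroup.mk (u (j 1)) : A) = 0 := by
    have := hadd 1 1
    rw [mul_one] at this
    exact left_eq_add.mp this
  let f : P →* Multiplicative A :=
    { toFun := fun q => Multiplicative.ofAdd (QuotientAddGroup.mk (u (j q)))
      map_one' := by rw [h1]; rfl
      map_mul' := fun a b => by rw [hadd]; rfl }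
  have hfo : IsOpen (f.ker : Set P) := by
    have h2 : IsLocallyConstant (fun q : P => (QuotientAddGroup.mk (u (j q)) : A)) :=
      (hu.comp_continuous hj).comp _
    have h3 := h2 {0}
    convert h3 using 1
    ext q
    constructor
    · intro h
      exact Multiplicative.ofAdd.injective h
    · intro h
      have h' : (QuotientAddGroup.mk (u (j q)) : A) = 0 := h
      change Multiplicative.ofAdd (QuotientAddGroup.mk (u (j q)) : A) = 1
      rw [h']; rfl
  rw [← Module.forall_dual_apply_eq_zero_iff (ZMod 2)]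
  intro l
  -- the functional on A
  let redm : Matrix (Fin n) (Fin n) W →+ Matrix (Fin n) (Fin n) k :=
    { toFun := fun X => X.map red
      map_zero' := Matrix.map_zero _ (map_zero red)
      map_add' := fun X Y => Matrix.map_add (hf := map_add red) .. }
  have hz : ∀ X ∈ S, (l.toAddMonoidHom.comp redm) X = 0 := by
    intro X hX
    obtain ⟨Y, rfl⟩ := (hS X).mp hX
    change l ((2 ^ m • Y).map red) = 0
    have : (2 ^ m • Y).map red = 0 := by
      apply (map_eq_zero_iff' red hker _).mpr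
      refine ⟨2 ^ (m - 1) • Y, ?_⟩
      rw [smul_smul, ← pow_succ', Nat.sub_add_cancel (by omega)]
    rw [this, map_zero]
  let μ : A →+ ZMod 2 := QuotientAddGroup.lift S (l.toAddMonoidHom.comp redm) hz
  have := hc A f μ hfo ?_ ?_ p hp
  · exact this
  · intro a
    obtain ⟨X, rfl⟩ := QuotientAddGroup.mk_surjective a
    rw [← QuotientAddGroup.mk_nsmul]
    exact (QuotientAddGroup.eq_zero_iff _).mpr ((hS _).mpr ⟨X, rfl⟩)
  · intro a ha
    obtain ⟨X, rfl⟩ := QuotientAddGroup.mk_surjective a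
    rw [← QuotientAddGroup.mk_nsmul] at ha
    obtain ⟨Y, hY⟩ := (hS _).mp ((QuotientAddGroup.eq_zero_iff _).mp ha)
    have h3 : 2 ^ (m - 1) • (X - 2 • Y) = 0 := by
      rw [smul_sub, ← hY, smul_smul, ← pow_succ, Nat.sub_add_cancel (by omega), sub_self]
    have h4 := tf_mat htf (m - 1) _ h3
    change l (X.map red) = 0
    have h5 : X.map red = 0 := (map_eq_zero_iff' red hker _).mpr ⟨Y, sub_eq_zero.mp h4⟩
    rw [h5, map_zero]

theorem coh_bound (hBock : StmBock) (hChar : StmChar) (hExH : MZEX.StmExH) (hL : StmL)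
    (w : GaloisField 2 2) (hw : w ^ 2 + w + 1 = 0) (hw3 : w ^ 3 = 1) :
    Module.Finite (GaloisField 2 2) (H1 (DS.rho w hw3)) ∧
    Module.rank (GaloisField 2 2) (H1 (DS.rho w hw3)) ≤
      Module.rank (GaloisField 2 2) (H2 (DS.rho w hw3)) + 1 := by
  classical
  obtain ⟨hfd, hgal, h9, hreal, hunr, hNF, htwo⟩ := hL
  haveI : IsAlgClosure Lf Om := ⟨inferInstance, Algebra.IsAlgebraic.tower_top (K := F5) Lf⟩
  haveI hG3 : IsGalois F5 (FSmax S30 : IntermediateField F5 Om) := Pool.Agent.W178.MZK.K7 F5 Om S30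
  have hle : Lf ≤ FSmax S30 :=
    le_iSup (fun K : {K : IntermediateField F5 Om //
      FiniteDimensional F5 K ∧ UnramifiedOutside S30 K} => K.1) ⟨Lf, hfd, hunr⟩
  letI : Algebra Lf (FSmax S30 : IntermediateField F5 Om) :=
    (IntermediateField.inclusion hle).toRingHom.toAlgebra
  haveI : IsScalarTower F5 Lf (FSmax S30 : IntermediateField F5 Om) :=
    IsScalarTower.of_algebraMap_eq (fun x => Subtype.ext rfl)
  haveI : IsGalois Lf (FSmax S30 : IntermediateField F5 Om) :=
    IsGalois.tower_top_of_isGalois F5 Lf _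
  -- √2
  obtain ⟨r₀, hr₀⟩ : ∃ r : Om, r ^ 2 = 2 := IsAlgClosed.exists_pow_nat_eq 2 (by norm_num)
  have hr₀mem : r₀ ∈ Linf Lf Om := by
    refine Pool.Agent.W343.MZ.stmK1.1 Lf Om 2 r₀ ?_ ⟨two_ne_zero, 1, ?_, ?_⟩ hr₀
    · have := (Linf Lf Om).algebraMap_mem (2 : Lf)
      rwa [map_ofNat] at this
    · have : (2 ^ 1 * 2 : Om) = algebraMap ℤ Om 4 := by norm_num
      rw [this]; exact isIntegral_algebraMap
    · have : (2 ^ 1 * 2⁻¹ : Om) = 1 := by norm_num
      rw [this]; exact isIntegral_one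
  have hr₀F : r₀ ∈ (FSmax S30 : IntermediateField F5 Om) :=
    Pool.Agent.W178.MZK.K6 F5 Om S30 two_mem_S30 Lf hunr hr₀mem
  let r : (FSmax S30 : IntermediateField F5 Om) := ⟨r₀, hr₀F⟩
  have hr2 : r ^ 2 = 2 := Subtype.ext hr₀
  have hr0 : r ≠ 0 := by
    intro h
    rw [h] at hr2
    norm_num at hr2
  have hrn : r ∉ (algebraMap Lf (FSmax S30 : IntermediateField F5 Om)).range := by
    rintro ⟨x, hx⟩
    refine no_sqrt2_Lf h9 x ?_
    apply (algebraMap Lf (FSmax S30 : IntermediateField F5 Om)).injective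
    rw [map_pow, hx, hr2, map_ofNat]
  have hneg : r ≠ -r := by
    intro h
    have : (2 : (FSmax S30 : IntermediateField F5 Om)) * r = 0 := by linear_combination h
    rcases mul_eq_zero.mp this with h2 | h2
    · norm_num at h2
    · exact hr0 h2
  have hsq : ∀ g : GFS Om S30, g r = r ∨ g r = -r := by
    intro g
    have : (g r) ^ 2 = r ^ 2 := by rw [← map_pow, hr2, map_ofNat]
    exact sq_eq_sq_iff_eq_or_eq_neg.mp this
  -- the character of `F(√2)`
  let χ : GFS Om S30 →* Multiplicative (ZMod 2) :=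
    { toFun := fun g => if g r = r then 1 else Multiplicative.ofAdd 1
      map_one' := by simp
      map_mul' := by
        intro a b
        have e2 : (Multiplicative.ofAdd 1 : Multiplicative (ZMod 2)) * Multiplicative.ofAdd 1 = 1 := by
          decide
        have hab : (a * b) r = a (b r) := rfl
        have hneg' : -r ≠ r := fun h => hneg h.symm
        rcases hsq a with ha | ha <;> rcases hsq b with hb | hb <;>
          simp [hab, ha, hb, hneg', e2] }
  have hχ : ∀ g, χ g = 1 ↔ g r = r := by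
    intro g
    change (if g r = r then 1 else Multiplicative.ofAdd 1) = (1 : Multiplicative (ZMod 2)) ↔ _
    have e1 : (Multiplicative.ofAdd 1 : Multiplicative (ZMod 2)) ≠ 1 := by decide
    split_ifs with h <;> simp [h, e1]
  have hχo : IsOpen (χ.ker : Set (GFS Om S30)) := by
    have := isOpen_stab (F := F5) r
    convert this using 1
    ext g
    exact hχ g
  -- the subgroup H
  let j : Gal((FSmax S30 : IntermediateField F5 Om)/Lf) →* GFS Om S30 := jR F5 Lf _
  have hjo : IsOpenMap j := isOpenMap_jR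
  have hjc : Continuous j := continuous_jR
  have hrange := range_jR_eq_ker (F := F5) (L := Lf) (E := (FSmax S30 : IntermediateField F5 Om))
  have hHn : j.range.Normal := by
    change (jR F5 Lf _).range.Normal
    rw [hrange]; exact MonoidHom.normal_ker _
  have hHo : IsOpen (j.range : Set (GFS Om S30)) := by
    rw [MonoidHom.coe_range]
    exact hjo.isOpen_range
  have hcard9 : Nat.card (GFS Om S30 ⧸ j.range) = 9 := by
    change Nat.card (GFS Om S30 ⧸ (jR F5 Lf _).range) = 9
    rw [hrange]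
    rw [Nat.card_congr (QuotientGroup.quotientKerEquivOfSurjective
      (AlgEquiv.restrictNormalHom (F := F5) (K₁ := (FSmax S30 : IntermediateField F5 Om)) Lf)
      (AlgEquiv.restrictNormalHom_surjective _)).toEquiv,
      IsGalois.card_aut_eq_finrank, h9]
  have hHfin : Finite (GFS Om S30 ⧸ j.range) := Nat.finite_of_card_ne_zero (by rw [hcard9]; norm_num)
  have hHfix : ∀ g ∈ j.range, DS.pa g = 1 ∧ 3 * DS.pt g = 0 := by
    intro g hg
    apply fix_Lf g
    intro x hx
    have h1 := (mem_range_jR g).mp hg ⟨(x : Om), hx⟩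
    exact h1
  obtain ⟨p₀, hp₀⟩ : ∃ p : Gal((FSmax S30 : IntermediateField F5 Om)/Lf), p r ≠ r := by
    by_contra hcon
    push Not at hcon
    exact hrn ((InfiniteGalois.mem_range_algebraMap_iff_fixed r).mpr hcon)
  -- coefficients
  let k := GaloisField 2 2
  let W := WittVector 2 k
  let red : W →+* k := WittVector.constantCoeff
  have hsurj : Function.Surjective red := WittVector.constantCoeff_surjective 2
  have hker : ∀ x : W, red x = 0 ↔ ∃ u, x = 2 * u := by
    intro x
    have h1 := WittVector.mem_span_p_iff_coeff_zero_eq_zero (p := 2) (k := k) x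
    change x.coeff 0 = 0 ↔ _
    rw [← h1, Ideal.mem_span_singleton']
    constructor
    · rintro ⟨a, ha⟩
      exact ⟨a, by rw [← ha, mul_comm]; norm_num⟩
    · rintro ⟨u, hu⟩
      exact ⟨u, by rw [hu, mul_comm]; norm_num⟩
  have htf : ∀ x : W, 2 * x = 0 → x = 0 := by
    intro x hx
    rcases mul_eq_zero.mp hx with h | h
    · exfalso
      have := WittVector.p_nonzero 2 k
      apply this
      exact_mod_cast h
    · exact h
  let wW : W := WittVector.teichmuller 2 w
  have hwW : wW ^ 3 = 1 := by rw [← map_pow, hw3, map_one]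
  have hredw : red wW = w := by
    change (WittVector.teichmuller 2 w).coeff 0 = w
    simp
  let ρ : GFS Om S30 →* GL (Fin 3) W := rhoR DS wW hwW
  let ρbar : GFS Om S30 →* GL (Fin 3) k := DS.rho w hw3
  have hρ : IsOpen (ρ.ker : Set (GFS Om S30)) := rhoR_ker_open DS wW hwW
  have hρb : IsOpen (ρbar.ker : Set (GFS Om S30)) := DS.rho_ker_open w hw3
  have hred : ∀ g, Matrix.GeneralLinearGroup.map red (ρ g) = ρbar g :=
    fun g => rhoR_map DS wW hwW red w hw3 hredw g
  have hH : ∀ h ∈ j.range, ∀ X, adAct ρ h X = X := by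
    intro h hh X
    obtain ⟨h1, h2⟩ := hHfix h hh
    obtain ⟨a, ha⟩ := matR_scalar wW (DS.pt h) h2
    have h3 : (ρ h : Matrix (Fin 3) (Fin 3) W) = a • (1 : Matrix (Fin 3) (Fin 3) W) := by
      rw [← ha, ← h1]; exact rhoR_coe DS wW hwW h
    rw [adAct_apply]
    have h4 : (ρ h : Matrix (Fin 3) (Fin 3) W) * X = X * (ρ h : Matrix (Fin 3) (Fin 3) W) := by
      rw [h3, Matrix.smul_mul, Matrix.mul_smul, Matrix.one_mul, Matrix.mul_one]
    rw [h4, Matrix.mul_assoc, ← Units.val_mul, mul_inv_cancel, Units.val_one, Matrix.mul_one]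
  have hHb : ∀ h ∈ j.range, ∀ X, adAct ρbar h X = X := by
    intro h hh X
    choose s hs using hsurj
    have h1 := congrArg (fun Y : Matrix (Fin 3) (Fin 3) W => Y.map red) (hH h hh (X.map s))
    have h2 : (X.map s).map red = X := by ext i j; exact hs _
    have h3 : (adAct ρ h (X.map s)).map red = (X.map s).map red := h1
    rw [map_adAct red ρ ρbar hred, h2] at h3
    exact h3
  obtain ⟨-, -, ⟨gT, hgT⟩, ⟨gS, hgS⟩⟩ := rho_props w hw hw3
  have hschur : ∀ X : Matrix (Fin 3) (Fin 3) k, (∀ g, adAct ρbar g X = X) → ∃ c : k, X = c • 1 := by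
    intro X hX
    have hcomm : ∀ g, (ρbar g : Matrix (Fin 3) (Fin 3) k) * X =
        X * (ρbar g : Matrix (Fin 3) (Fin 3) k) := by
      intro g
      have h1 := hX g
      rw [adAct_apply] at h1
      calc (ρbar g : Matrix (Fin 3) (Fin 3) k) * X =
          (ρbar g : Matrix (Fin 3) (Fin 3) k) * X *
            ((((ρbar g)⁻¹ : GL (Fin 3) k) : Matrix (Fin 3) (Fin 3) k) * (ρbar g : Matrix (Fin 3) (Fin 3) k)) := by
            rw [← Units.val_mul, inv_mul_cancel, Units.val_one, Matrix.mul_one]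
        _ = _ := by rw [← Matrix.mul_assoc, h1]
    refine schur_TS w hw ?_ X ?_ ?_
    · have h2 : (2 : k) = 0 := CharTwo.two_eq_zero
      have : (3 : k) = 1 := by linear_combination h2
      rw [this]; exact one_ne_zero
    · have := hcomm gT
      rw [show (ρbar gT : Matrix (Fin 3) (Fin 3) k) = _ from hgT] at this
      exact this
    · have := hcomm gS
      rw [show (ρbar gS : Matrix (Fin 3) (Fin 3) k) = _ from hgS] at this
      exact this
  -- the exponent m
  have hN : ∀ v ∈ S30, ((30 : ℕ) : 𝓞 F5) ∈ v.asIdeal := by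
    intro v hv
    have : (30 : 𝓞 F5) ∈ v.asIdeal := hv
    exact_mod_cast this
  obtain ⟨m, hm2, hm⟩ := hChar Lf (FSmax S30 : IntermediateField F5 Om) hreal htwo 30 (by norm_num)
    (fun E hE v hv => unram_over S30 30 hN E hE v hv)
  have hfinZ : Finite (Z1 ρbar) :=
    finite_Z1 ρbar j.range hHfin hHb (hExH F5 Om S30 S30_finite two_mem_S30 j.range hHo)
  refine rank_bound ρbar hρb hfinZ χ {f | Liftable red ρ m f} ?_ ?_
  · intro f hf
    refine liftable_form hker ρ ρbar hred j.range hHn hHfin (by rw [hcard9]; decide) hH hHb χ hχo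
      (j p₀) ⟨p₀, rfl⟩ ?_ hschur m (by omega) ?_ f hf
    · intro h
      exact hp₀ ((hχ _).mp h)
    · rintro u hu hu' _ ⟨p, rfl⟩ hp
      exact hchar_of j hjc red hker htf m hm2 (fun p => p r = r)
        (fun A _ f μ h1 h2 h3 g hg => hm A f μ h1 h2 h3 r hr2 g hg) u hu hu' p ((hχ _).mp hp)
  · intro hH2
    have := card_bound hsurj hker htf ρ hρ ρbar hred hBock hfinZ hH2 (m - 1)
    rw [Nat.sub_add_cancel (by omega)] at this
    exact this

end MC
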