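import Pool.Agent.W413.MZ.H1

/-!
# MP_cd44e0_nt: finite extensions of `L` inside `F_S` are unramified outside `N`
-/

set_option autoImplicit false
set_option linter.style.haveILetI false
set_option linter.unusedSectionVars false

namespace MC

open NumberField IsDedekindDomain MZ

lemma unram_over {F Ω : Type} [Field F] [NumberField F] [Field Ω] [Algebra F Ω] [IsAlgClosure F Ω]
    (S : Set (HeightOneSpectrum (𝓞 F))) (N : ℕ) (hN : ∀ v ∈ S, (N : 𝓞 F) ∈ v.asIdeal)
    {L : Type} [Field L] [NumberField L] [Algebra F L]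
    [Algebra L (FSmax S : IntermediateField F Ω)]
    [IsScalarTower F L (FSmax S : IntermediateField F Ω)]
    (E : IntermediateField L (FSmax S : IntermediateField F Ω)) (hE : FiniteDimensional L E)
    (w : HeightOneSpectrum (𝓞 E)) (hw : (N : 𝓞 E) ∉ w.asIdeal) :
    Algebra.IsUnramifiedAt (𝓞 L) w.asIdeal := by
  haveI : FiniteDimensional F L := FiniteDimensional.right ℚ F L
  let E₀ : IntermediateField F (FSmax S : IntermediateField F Ω) := E.restrictScalars F
  haveI : FiniteDimensional F E := FiniteDimensional.trans F L E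
  haveI : FiniteDimensional F E₀ := this
  let E₁ : IntermediateField F Ω := E₀.map (FSmax S : IntermediateField F Ω).val
  let e : E ≃ₐ[F] E₁ := E₀.equivMap (FSmax S : IntermediateField F Ω).val
  haveI : FiniteDimensional F E₁ := LinearEquiv.finiteDimensional e.toLinearEquiv
  have hE₁ : E₁ ≤ FSmax S := by
    rintro _ ⟨x, -, rfl⟩
    exact x.2
  have hun : UnramifiedOutside S E₁ := MZ413.stmExH1 F Ω S E₁ inferInstance hE₁
  let e' : 𝓞 E ≃ₐ[𝓞 F] 𝓞 E₁ := RingOfIntegers.mapAlgEquiv e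
  have hprime : (w.asIdeal.comap (e'.symm : 𝓞 E₁ →+* 𝓞 E)).IsPrime := Ideal.comap_isPrime _ _
  have hne : w.asIdeal.comap (e'.symm : 𝓞 E₁ →+* 𝓞 E) ≠ ⊥ := by
    intro h0
    apply w.ne_bot
    have : (w.asIdeal.comap (e'.symm : 𝓞 E₁ →+* 𝓞 E)).map (e'.symm : 𝓞 E₁ →+* 𝓞 E) = w.asIdeal :=
      Ideal.map_comap_of_surjective _ e'.symm.surjective _
    rw [← this, h0, Ideal.map_bot]
  let w1 : HeightOneSpectrum (𝓞 E₁) := ⟨w.asIdeal.comap (e'.symm : 𝓞 E₁ →+* 𝓞 E), hprime, hne⟩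
  have h1 : Algebra.IsUnramifiedAt (𝓞 F) w1.asIdeal := hun w1 (by
    intro v hv hcon
    apply hw
    have h2 : (N : 𝓞 F) ∈ w1.asIdeal.comap (algebraMap (𝓞 F) (𝓞 E₁)) := by
      rw [hcon]; exact hN v hv
    rw [Ideal.mem_comap, map_natCast] at h2
    have h3 : (e'.symm : 𝓞 E₁ →+* 𝓞 E) (N : 𝓞 E₁) ∈ w.asIdeal := h2
    rwa [map_natCast] at h3)
  have h2 : Algebra.IsUnramifiedAt (𝓞 F) w.asIdeal :=
    Algebra.FormallyUnramified.of_equiv (Localization.localAlgEquiv w1.asIdeal w.asIdeal e'.symm rfl)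
  exact Algebra.IsUnramifiedAt.of_restrictScalars (𝓞 F) w.asIdeal

end MC
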