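import Pool.Agent.W413.MC.RepW
import Pool.Agent.W413.MC.Unr
import Pool.Agent.W566.MZ.Asm3
import Pool.Agent.W343.MZ.K12
import Pool.Agent.W178.MZ.K6

/-!
# MP_cd44e0_nt: properties of the concrete residual representation
-/

set_option autoImplicit false
set_option linter.style.haveILetI false
set_option linter.unusedSectionVars false

namespace MC

open MZ MZ294 NumberField IsDedekindDomain Matrix

lemma schur_TS {k : Type} [Field k] (w : k) (hw : w ^ 2 + w + 1 = 0) (h3 : (3 : k) ≠ 0)
    (X : Matrix (Fin 3) (Fin 3) k)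
    (hT : !![0, 0, w; 1, 0, 0; 0, 1, 0] * X = X * !![0, 0, w; 1, 0, 0; 0, 1, 0])
    (hS : mat w 4 0 * X = X * mat w 4 0) : ∃ c : k, X = c • (1 : Matrix (Fin 3) (Fin 3) k) := by
  have hw0 : w ≠ 0 := by rintro rfl; simp at hw
  have hw1 : w ≠ 1 := by
    rintro rfl
    apply h3
    linear_combination hw
  have hoff : ∀ i j, i ≠ j → X i j = 0 := by
    intro i j hij
    have h1 := congrFun (congrFun hS i) j
    rw [Matrix.mul_apply, Matrix.mul_apply] at h1
    simp only [mat_S] at h1
    rw [Finset.sum_eq_single i, Finset.sum_eq_single j] at h1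
    · rw [if_pos rfl, if_pos rfl] at h1
      have h2 : (w ^ (i : ℕ) - w ^ (j : ℕ)) * X i j = 0 := by linear_combination h1
      rcases mul_eq_zero.mp h2 with h | h
      · exfalso
        fin_cases i <;> fin_cases j <;> simp at hij h
        · exact hw1 (by linear_combination -h)
        · -- 1 - w^2
          have : (1 - w) * (1 + w) = 0 := by linear_combination h
          rcases mul_eq_zero.mp this with h' | h'
          · exact hw1 (by linear_combination -h')
          · apply hw0
            have : w ^ 2 = 0 := by linear_combination hw - h'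
            exact pow_eq_zero_iff (two_ne_zero) |>.mp this
        · exact hw1 (by linear_combination h)
        · have : w * (1 - w) = 0 := by linear_combination h
          rcases mul_eq_zero.mp this with h' | h'
          · exact hw0 h'
          · exact hw1 (by linear_combination -h')
        · have : (1 - w) * (1 + w) = 0 := by linear_combination -h
          rcases mul_eq_zero.mp this with h' | h'
          · exact hw1 (by linear_combination -h')
          · apply hw0
            have : w ^ 2 = 0 := by linear_combination hw - h'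
            exact pow_eq_zero_iff (two_ne_zero) |>.mp this
        · have : w * (1 - w) = 0 := by linear_combination -h
          rcases mul_eq_zero.mp this with h' | h'
          · exact hw0 h'
          · exact hw1 (by linear_combination -h')
      · exact h
    · intro b _ hb
      rw [if_neg hb, mul_zero]
    · simp
    · intro b _ hb
      rw [if_neg (fun h => hb h.symm), zero_mul]
    · simp
  have h10 := congrFun (congrFun hT 1) 0
  have h21 := congrFun (congrFun hT 2) 1
  simp [Matrix.mul_apply, Fin.sum_univ_three] at h10 h21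
  refine ⟨X 0 0, ?_⟩
  ext i j
  rw [Matrix.smul_apply]
  by_cases hij : i = j
  · subst hij
    rw [Matrix.one_apply_eq, smul_eq_mul, mul_one]
    fin_cases i
    · rfl
    · exact h10.symm
    · exact (h10.trans h21).symm
  · rw [Matrix.one_apply_ne hij, smul_zero, hoff i j hij]

lemma fix_Lf (g : GFS Om S30)
    (hg : ∀ x : (FSmax S30 : IntermediateField F5 Om), (x : Om) ∈ Lf → g x = x) :
    DS.pa g = 1 ∧ 3 * DS.pt g = 0 := by
  have e1 : (DS.eN : Om) = ze + ze⁻¹ := by
    change yy ^ 0 * ze ^ 1 + (yy ^ 0 * ze ^ 1)⁻¹ = _; simp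
  have e2 : (DS.eM : Om) = yy ^ 3 + (yy ^ 3)⁻¹ := by
    change yy ^ 3 * ze ^ 0 + (yy ^ 3 * ze ^ 0)⁻¹ = _; simp
  have h1 : g DS.eN = DS.eN := hg _ (by
    rw [e1]; exact IntermediateField.subset_adjoin _ _ (by simp))
  have h2 : g DS.eM = DS.eM := hg _ (by
    rw [e2]; exact IntermediateField.subset_adjoin _ _ (by simp))
  exact ⟨DS.fix_eN_iff g h1, DS.fix_eM_iff g h2⟩

/-- properties of `ρ̄` -/
theorem rho_props (w : GaloisField 2 2) (hw : w ^ 2 + w + 1 = 0) (hw3 : w ^ 3 = 1) :
    AbsIrred (DS.rho w hw3) ∧ (∀ g : GFS Om S30, DS.rho w hw3 g ^ 27 = 1) ∧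
    (∃ g : GFS Om S30, (DS.rho w hw3 g : Matrix (Fin 3) (Fin 3) _) = !![0, 0, w; 1, 0, 0; 0, 1, 0]) ∧
    (∃ g : GFS Om S30, (DS.rho w hw3 g : Matrix (Fin 3) (Fin 3) _) = mat w 4 0) := by
  haveI : IsGalois F5 (FSmax S30 : IntermediateField F5 Om) := Pool.Agent.W178.MZK.K7 F5 Om S30
  have hsurj := DS.Lam_surj (noroot_e finrank_F5 DS.s DS.hs) (noroot_u finrank_F5 DS.s DS.hs)
    (fun s x hs => noroot_p finrank_F5 s x hs)
  have hw0 : w ≠ 0 := by rintro rfl; simp at hw
  obtain ⟨gT, hT1, hT2⟩ := DS.pa_pt_surj hsurj 1 1 (by simp)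
  obtain ⟨gS, hS1, hS2⟩ := DS.pa_pt_surj hsurj 4 0 (by simp)
  refine ⟨?_, ?_, ⟨gT, ?_⟩, ⟨gS, ?_⟩⟩
  · -- absolute irreducibility
    intro V hV
    set f := algebraMap (GaloisField 2 2) (AlgebraicClosure (GaloisField 2 2)) with hf
    refine irred_TS (f w) ?_ ?_ V ?_ ?_
    · rw [← map_pow, ← map_add, ← map_one f, ← map_add, hw, map_zero]
    · have h2 : (2 : AlgebraicClosure (GaloisField 2 2)) = 0 := by
        have : (2 : GaloisField 2 2) = 0 := CharTwo.two_eq_zero
        rw [← map_ofNat f 2, this, map_zero]
      have : (3 : AlgebraicClosure (GaloisField 2 2)) = 1 := by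
        linear_combination h2
      rw [this]; exact one_ne_zero
    · intro x hx
      have := hV gT x hx
      rw [DS.rho_coe, hT1, hT2, mat_T] at this
      convert this using 2
      ext i j; fin_cases i <;> fin_cases j <;> simp
    · intro x hx
      have := hV gS x hx
      rw [DS.rho_coe, hS1, hS2] at this
      convert this using 1
      ext i
      simp only [Matrix.mulVec, dotProduct, Matrix.map_apply, mat_S]
      rw [Finset.sum_eq_single i]
      · simp
      · intro j _ hj
        rw [if_neg (fun h => hj h.symm), map_zero, zero_mul]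
      · simp
  · intro g
    rw [← map_pow]
    apply Units.ext
    rw [DS.rho_coe, (DS.pa_pt_27 g).1, (DS.pa_pt_27 g).2, mat_one]; rfl
  · rw [DS.rho_coe, hT1, hT2, mat_T]
  · rw [DS.rho_coe, hS1, hS2]

end MC
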