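import Pool.Agent.W294.MZ.StmRhoproof
import Pool.Agent.W413.MC.Lift

/-!
# MP_cd44e0_nt: the lift of the residual representation to the Witt vectors
-/

set_option autoImplicit false
set_option linter.style.haveILetI false
set_option linter.unusedSectionVars false

namespace MC

open Matrix

section mat

variable {R : Type} [CommRing R] (w : R)

/-- weight function on `ZMod 9`. -/
def wtR (x : ZMod 9) : R := if x = 0 then 1 else if x = 3 then w else if x = 6 then w ^ 2 else 0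

lemma wtR_0 : wtR w 0 = 1 := by simp [wtR]
lemma wtR_3 : wtR w 3 = w := by
  have : (3 : ZMod 9) ≠ 0 := by decide
  simp [wtR, this]
lemma wtR_6 : wtR w 6 = w ^ 2 := by
  have h1 : (6 : ZMod 9) ≠ 0 := by decide
  have h2 : (6 : ZMod 9) ≠ 3 := by decide
  simp [wtR, h1, h2]
lemma wtR_else {x : ZMod 9} (h0 : x ≠ 0) (h3 : x ≠ 3) (h6 : x ≠ 6) : wtR w x = 0 := by
  simp [wtR, h0, h3, h6]

lemma wtR_add3 (hw : w ^ 3 = 1) (x : ZMod 9) : wtR w (x + 3) = w * wtR w x := by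
  have h : ∀ x : ZMod 9, (x = 0 ∧ x + 3 = 3) ∨ (x = 3 ∧ x + 3 = 6) ∨ (x = 6 ∧ x + 3 = 0) ∨
    ((x ≠ 0 ∧ x ≠ 3 ∧ x ≠ 6) ∧ x + 3 ≠ 0 ∧ x + 3 ≠ 3 ∧ x + 3 ≠ 6) := by decide
  rcases h x with ⟨h1, h2⟩ | ⟨h1, h2⟩ | ⟨h1, h2⟩ | ⟨⟨h1, h1', h1''⟩, h2, h2', h2''⟩
  · rw [h2, h1, wtR_0, wtR_3, mul_one]
  · rw [h2, h1, wtR_6, wtR_3, sq]
  · rw [h2, h1, wtR_6, wtR_0, ← hw]; ring
  · rw [wtR_else w h1 h1' h1'', wtR_else w h2 h2' h2'', mul_zero]

lemma wtR_add_mul (hw : w ^ 3 = 1) (x : ZMod 9) (m : ℕ) : wtR w (x + 3 * m) = w ^ m * wtR w x := by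
  induction m with
  | zero => simp
  | succ m ih =>
    have : x + 3 * ((m + 1 : ℕ) : ZMod 9) = (x + 3 * m) + 3 := by push_cast; ring
    rw [this, wtR_add3 w hw, ih]; ring

/-- the matrix of `x ↦ a x + t`. -/
def matR (a t : ZMod 9) : Matrix (Fin 3) (Fin 3) R :=
  Matrix.of fun i j => wtR w (a * ((j : ℕ) : ZMod 9) + t - ((i : ℕ) : ZMod 9))

lemma matR_apply (a t : ZMod 9) (i j : Fin 3) :
    matR w a t i j = wtR w (a * ((j : ℕ) : ZMod 9) + t - ((i : ℕ) : ZMod 9)) := rfl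

lemma sum_wtR (hw : w ^ 3 = 1) (a c x : ZMod 9) (ha : a = 1 ∨ a = 4 ∨ a = 7) :
    ∑ j : Fin 3, wtR w (a * ((j : ℕ) : ZMod 9) + c) * wtR w (x - ((j : ℕ) : ZMod 9)) =
      wtR w (a * x + c) := by
  have h3a : 3 * a = 3 := by rcases ha with rfl | rfl | rfl <;> decide
  have hx : ∀ x : ZMod 9, ∃ (x0 : Fin 3) (m : Fin 3), x = ((x0 : ℕ) : ZMod 9) + 3 * ((m : ℕ) : ZMod 9) := by
    decide
  obtain ⟨x0, m, rfl⟩ := hx x
  have h1 : ∀ j : Fin 3, wtR w (((x0 : ℕ) : ZMod 9) + 3 * ((m : ℕ) : ZMod 9) - ((j : ℕ) : ZMod 9)) =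
      w ^ (m : ℕ) * wtR w (((x0 : ℕ) : ZMod 9) - ((j : ℕ) : ZMod 9)) := by
    intro j
    rw [← wtR_add_mul w hw]; congr 1; ring
  have h2 : a * (((x0 : ℕ) : ZMod 9) + 3 * ((m : ℕ) : ZMod 9)) + c =
      (a * ((x0 : ℕ) : ZMod 9) + c) + 3 * ((m : ℕ) : ZMod 9) := by
    linear_combination ((m : ℕ) : ZMod 9) * h3a
  have h3 : ∀ j : Fin 3, wtR w (((x0 : ℕ) : ZMod 9) - ((j : ℕ) : ZMod 9)) = if j = x0 then 1 else 0 := by
    intro j
    by_cases hj : j = x0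
    · rw [if_pos hj, hj, sub_self, wtR_0]
    · rw [if_neg hj]
      have : ∀ x0 j : Fin 3, j ≠ x0 → ((((x0 : ℕ) : ZMod 9) - ((j : ℕ) : ZMod 9)) ≠ 0 ∧
        (((x0 : ℕ) : ZMod 9) - ((j : ℕ) : ZMod 9)) ≠ 3 ∧
        (((x0 : ℕ) : ZMod 9) - ((j : ℕ) : ZMod 9)) ≠ 6) := by decide
      obtain ⟨g1, g2, g3⟩ := this x0 j hj
      exact wtR_else w g1 g2 g3
  rw [h2, wtR_add_mul w hw]
  simp_rw [h1, h3]
  simp [mul_comm]

lemma matR_mul (hw : w ^ 3 = 1) (a t a' t' : ZMod 9) (ha : a = 1 ∨ a = 4 ∨ a = 7) :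
    matR w a t * matR w a' t' = matR w (a * a') (t + a * t') := by
  ext i l
  rw [Matrix.mul_apply]
  simp_rw [matR_apply]
  have := sum_wtR w hw a (t - ((i : ℕ) : ZMod 9)) (a' * ((l : ℕ) : ZMod 9) + t') ha
  rw [show a * a' * ((l : ℕ) : ZMod 9) + (t + a * t') - ((i : ℕ) : ZMod 9) =
    a * (a' * ((l : ℕ) : ZMod 9) + t') + (t - ((i : ℕ) : ZMod 9)) by ring, ← this]
  refine Finset.sum_congr rfl fun j _ => ?_
  rw [add_sub_assoc]

lemma matR_one : matR w 1 0 = 1 := by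
  ext i j
  rw [matR_apply]
  by_cases h : i = j
  · subst h; simp [wtR_0]
  · rw [Matrix.one_apply_ne h]
    have : ∀ i j : Fin 3, i ≠ j → ((1 * ((j : ℕ) : ZMod 9) + 0 - ((i : ℕ) : ZMod 9)) ≠ 0 ∧
        (1 * ((j : ℕ) : ZMod 9) + 0 - ((i : ℕ) : ZMod 9)) ≠ 3 ∧
        (1 * ((j : ℕ) : ZMod 9) + 0 - ((i : ℕ) : ZMod 9)) ≠ 6) := by decide
    obtain ⟨g1, g2, g3⟩ := this i j h
    exact wtR_else w g1 g2 g3

lemma matR_scalar (t : ZMod 9) (ht : 3 * t = 0) :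
    ∃ a : R, matR w 1 t = a • (1 : Matrix (Fin 3) (Fin 3) R) := by
  refine ⟨wtR w t, ?_⟩
  ext i j
  rw [matR_apply, Matrix.smul_apply]
  by_cases h : i = j
  · subst h
    rw [Matrix.one_apply_eq, smul_eq_mul, mul_one]
    congr 1; ring
  · rw [Matrix.one_apply_ne h, smul_zero]
    have : ∀ i j : Fin 3, ∀ t : ZMod 9, 3 * t = 0 → i ≠ j →
        ((1 * ((j : ℕ) : ZMod 9) + t - ((i : ℕ) : ZMod 9)) ≠ 0 ∧
        (1 * ((j : ℕ) : ZMod 9) + t - ((i : ℕ) : ZMod 9)) ≠ 3 ∧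
        (1 * ((j : ℕ) : ZMod 9) + t - ((i : ℕ) : ZMod 9)) ≠ 6) := by decide
    obtain ⟨g1, g2, g3⟩ := this i j t ht h
    exact wtR_else w g1 g2 g3

end mat

lemma matR_eq {k : Type} [Field k] (w : k) (a t : ZMod 9) : matR w a t = MZ294.mat w a t := rfl

lemma map_matR {W k : Type} [CommRing W] [CommRing k] (red : W →+* k) (v : W) (a t : ZMod 9) :
    (matR v a t).map red = matR (red v) a t := by
  ext i j
  rw [Matrix.map_apply, matR_apply, matR_apply]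
  unfold wtR
  split_ifs <;> simp

section dat

variable {F E : Type} [Field F] [CharZero F] [Field E] [Algebra F E] (D : MZ294.Dat F E)
variable {R : Type} [CommRing R] (w : R) (hw : w ^ 3 = 1)

/-- The monomial representation over a commutative ring. -/
noncomputable def rhoMR : (E ≃ₐ[F] E) →* Matrix (Fin 3) (Fin 3) R where
  toFun g := matR w (D.pa g) (D.pt g)
  map_one' := by rw [D.pa_one, D.pt_one, matR_one]
  map_mul' g h := by
    rw [matR_mul w hw _ _ _ _ (D.pa_mem g), D.pa_mul, D.pt_mul]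

/-- The representation `Aut(E/F) → GL₃(R)`. -/
noncomputable def rhoR : (E ≃ₐ[F] E) →* GL (Fin 3) R := (rhoMR D w hw).toHomUnits

lemma rhoR_coe (g : E ≃ₐ[F] E) :
    ((rhoR D w hw g : GL (Fin 3) R) : Matrix (Fin 3) (Fin 3) R) = matR w (D.pa g) (D.pt g) := rfl

lemma rhoR_ker_open [IsGalois F E] : IsOpen ((rhoR D w hw).ker : Set (E ≃ₐ[F] E)) := by
  refine Subgroup.isOpen_mono ?_ (IntermediateField.fixingSubgroup_isOpen D.K0)
  intro g hg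
  rw [MonoidHom.mem_ker]
  apply Units.ext
  rw [rhoR_coe, (D.pa_pt_of_fix g hg).1, (D.pa_pt_of_fix g hg).2, matR_one]; rfl

lemma rhoR_map {k : Type} [Field k] (red : R →+* k) (wb : k) (hwb : wb ^ 3 = 1) (h : red w = wb)
    (g : E ≃ₐ[F] E) :
    Matrix.GeneralLinearGroup.map red (rhoR D w hw g) = D.rho wb hwb g := by
  apply Units.ext
  change (matR w (D.pa g) (D.pt g)).map red = MZ294.mat wb (D.pa g) (D.pt g)
  rw [map_matR, h, matR_eq]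

end dat

end MC
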