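import Pool.Agent.W294.MZ.Field
import Pool.Agent.W413.MZ.H1

/-!
# MP_cd44e0_nt (Mazur: dim R/p = h¹ - h²), interface statements (helper413)

Same counterexample as MP_aa8fd2_nt; the new part is `h¹(G_{F,S}, ad) - h²(G_{F,S}, ad) ≤ 1`.
-/

set_option autoImplicit false

namespace MC

open NumberField IsDedekindDomain

/-- BOCK : pure algebra.  `d : C₁ → C₂`, `C₂` without 2-torsion; `V_m = red {x | d x ∈ 2^m C₂}`;
`θ : Z → H` with `ker θ = Z ∩ (d C₁ + 2 C₂)`, where `Z` contains all `y` with `2^m y ∈ d C₁`.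
Then `|V₁| ≤ |V_{M+1}| |H|`. -/
def StmBock : Prop :=
  ∀ (C₁ C₂ Q H : Type) [AddCommGroup C₁] [AddCommGroup C₂] [AddCommGroup Q] [AddCommGroup H]
    (d : C₁ →+ C₂) (red : C₁ →+ Q) (Z : AddSubgroup C₂) (θ : Z →+ H),
    (∀ y : C₂, 2 • y = 0 → y = 0) →
    (∀ x : C₁, red x = 0 ↔ ∃ u : C₁, x = 2 • u) →
    (∀ (m : ℕ) (y : C₂) (x : C₁), d x = 2 ^ m • y → y ∈ Z) →
    (∀ y : Z, θ y = 0 ↔ ∃ (u : C₁) (v : C₂), (y : C₂) = d u + 2 • v) →
    Finite H → Set.Finite {q : Q | ∃ (x : C₁) (y : C₂), d x = 2 • y ∧ red x = q} →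
    ∀ M : ℕ, Nat.card {q : Q | ∃ (x : C₁) (y : C₂), d x = 2 • y ∧ red x = q} ≤
      Nat.card {q : Q | ∃ (x : C₁) (y : C₂), d x = 2 ^ (M + 1) • y ∧ red x = q} * Nat.card H

/-- TAME : in an abelian extension `E/L` of 2-power degree, the elements of the inertia group of a
prime `P ∤ 2` are killed by `N(P ∩ L) - 1`. -/
def StmTame : Prop :=
  ∀ (L E : Type) [Field L] [NumberField L] [Field E] [NumberField E] [Algebra L E] [IsGalois L E],
    (∀ g h : E ≃ₐ[L] E, g * h = h * g) → (∀ g : E ≃ₐ[L] E, ∃ e : ℕ, g ^ (2 ^ e) = 1) →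
    ∀ (P : Ideal (𝓞 E)) [P.IsPrime], P ≠ ⊥ → (2 : 𝓞 E) ∉ P →
    ∀ g : E ≃ₐ[L] E, MZ413.InInertia P g → g ^ (Nat.card (𝓞 L ⧸ P.under (𝓞 L)) - 1) = 1

/-- CHAR : `L` totally real and 2-rational with one dyadic prime, `K/L` Galois, unramified outside
`N`.  For some `m`: if `f : Gal(K/L) → A` is a continuous homomorphism, `2^m A = 0`, and
`μ : A → ℤ/2` kills the elements killed by `2^(m-1)`, then `μ ∘ f` kills the stabiliser of `√2`. -/
def StmChar : Prop :=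
  ∀ (L K : Type) [Field L] [NumberField L] [Field K] [Algebra L K] [IsGalois L K],
    (∀ τ : L →+* ℂ, ComplexEmbedding.IsReal τ) → MZ294.TwoRat L →
    ∀ N : ℕ, N ≠ 0 →
    (∀ E : IntermediateField L K, FiniteDimensional L E → ∀ w : HeightOneSpectrum (𝓞 E),
      (N : 𝓞 E) ∉ w.asIdeal → Algebra.IsUnramifiedAt (𝓞 L) w.asIdeal) →
    ∃ m : ℕ, 2 ≤ m ∧ ∀ (A : Type) [AddCommGroup A] (f : Gal(K/L) →* Multiplicative A)
      (μ : A →+ ZMod 2), IsOpen (f.ker : Set Gal(K/L)) → (∀ a : A, 2 ^ m • a = 0) →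
      (∀ a : A, 2 ^ (m - 1) • a = 0 → μ a = 0) →
      ∀ r : K, r ^ 2 = 2 → ∀ g : Gal(K/L), g r = r → μ (Multiplicative.toAdd (f g)) = 0

end MC
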